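import Pool.Agent.H139R2.RL.Uni
import Pool.Agent.H460R2.Defs

set_option autoImplicit false
set_option linter.unusedSectionVars false

namespace H139R2
open MeasureTheory Finset
open scoped RealInnerProductSpace
open InnerProductSpace

lemma gramSchmidt_fin {E : Type*} [NormedAddCommGroup E] [InnerProductSpace ℝ E] (F : ℕ → E) (d : ℕ)
    (G : Fin d → E) (hG : ∀ i : Fin d, G i = F i) (i : Fin d) :
    gramSchmidt ℝ G i = gramSchmidt ℝ F i := by
  obtain ⟨i, hi⟩ := i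
  induction i using Nat.strong_induction_on with
  | _ i ih =>
    rw [gramSchmidt_def, gramSchmidt_def, hG]
    congr 1
    simp only
    rw [← Fin.map_valEmbedding_Iio (a := (⟨i, hi⟩ : Fin d)), Finset.sum_map]
    apply Finset.sum_congr rfl
    intro k hk
    rw [Finset.mem_Iio] at hk
    have hk' : (k:ℕ) < i := hk
    have := ih k hk' (by omega)
    simp only [Fin.eta] at this
    rw [this]
    simp

/-- extension of a finite tuple by zero -/
def ext {n d : ℕ} (b : Fin d → (Fin n → ℤ)) : ℕ → Fin n → ℤ :=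
  fun i => if h : i < d then b ⟨i, h⟩ else 0

lemma ext_lt {n d : ℕ} (b : Fin d → (Fin n → ℤ)) {i : ℕ} (h : i < d) : ext b i = b ⟨i, h⟩ := by
  simp [ext, h]

lemma ext_ge {n d : ℕ} (b : Fin d → (Fin n → ℤ)) {i : ℕ} (h : d ≤ i) : ext b i = 0 := by
  simp [ext, h]

lemma emb_eq {n : ℕ} (x : Fin n → ℤ) : H460.emb (Fin n) x = emb x := rfl

lemma gs_ext {n d : ℕ} (b : Fin d → (Fin n → ℤ)) (i : Fin d) :
    H460.gs b i = gs (ext b) i := by
  unfold H460.gs gs
  apply gramSchmidt_fin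
  intro j
  rw [ext_lt b j.2]; rfl

lemma prod_Iic_fin {d : ℕ} (f : ℕ → ℝ) (j : Fin d) :
    ∏ i ∈ Finset.Iic j, f i = ∏ i ∈ range ((j:ℕ)+1), f i := by
  have h1 : range ((j:ℕ)+1) = Finset.Iic (j:ℕ) := by ext; simp
  rw [h1, ← Fin.map_valEmbedding_Iic, Finset.prod_map]
  rfl

/-- numerical largeness assumptions on `n` -/
structure Big (n μ : ℕ) : Prop where
  h1 : 88 + 8 * (μ:ℝ) ≤ Real.log n
  h2 : Real.log n ≤ n / 1000

lemma Big.n_ge {n μ : ℕ} (h : Big n μ) : (88000 : ℝ) ≤ n := by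
  have := h.h1; have := h.h2
  have : (0:ℝ) ≤ μ := by positivity
  linarith

lemma Big.mu_le {n μ : ℕ} (h : Big n μ) : (μ:ℝ) ≤ n / 8000 := by
  have := h.h1; have := h.h2
  linarith

lemma Big.mu_nat {n μ : ℕ} (h : Big n μ) : μ ≤ n ^ 2 := by
  have h1 := h.mu_le
  have h2 := h.n_ge
  have : (μ:ℝ) ≤ (n:ℝ)^2 := by nlinarith
  exact_mod_cast this

lemma eventually_big (μ : ℕ) : ∀ᶠ n : ℕ in Filter.atTop, Big n μ := by
  have h1 : ∀ᶠ n : ℕ in Filter.atTop, 88 + 8 * (μ:ℝ) ≤ Real.log n :=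
    (Real.tendsto_log_atTop.comp tendsto_natCast_atTop_atTop).eventually_ge_atTop _
  have h2 : ∀ᶠ n : ℕ in Filter.atTop, Real.log n ≤ n / 1000 := by
    have h3 := Real.isLittleO_log_id_atTop.comp_tendsto tendsto_natCast_atTop_atTop
    have h4 := h3.bound (show (0:ℝ) < 1/1000 by norm_num)
    filter_upwards [h4] with n hn
    simp only [Function.comp, id] at hn
    have : Real.log n ≤ ‖Real.log n‖ := le_abs_self _
    rw [Real.norm_natCast] at hn
    linarith
  filter_upwards [h1, h2] with n a b using ⟨a, b⟩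

lemma log_NN {n μ : ℕ} (h : Big n μ) : Real.log (H460.NN n μ) = ((n:ℝ)^2 - μ) * Real.log 2 := by
  unfold H460.NN
  rw [Real.log_pow, Nat.cast_sub h.mu_nat]
  push_cast; ring

lemma log_TT (n : ℕ) : Real.log (H460.TT n) = (n:ℝ)^2 * Real.log 2 := by
  unfold H460.TT
  rw [Real.log_pow]; push_cast; ring

/-- consequences of being a bad tuple -/
lemma bad_facts {n μ : ℕ} (hB : Big n μ) (b : Fin (n/2) → (Fin n → ℤ)) (hb : H460.BadTuple n μ b) :
    (∀ i < n/2, gs (ext b) i ≠ 0) ∧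
    (∀ i < n/2, ∀ i' < i, |⟪gs (ext b) i', emb (ext b i)⟫| ≤ ‖gs (ext b) i'‖ ^ 2 / 2) ∧
    (∀ i < n/2, Real.sqrt n ≤ ‖gs (ext b) i‖) ∧
    (∀ i < n/2, ‖gs (ext b) i‖ < Real.sqrt n * 2 ^ (n^3)) ∧
    (∀ j ≤ n/2, ∑ i ∈ range j, Real.log ‖gs (ext b) i‖ ≤ j * ((n:ℝ)^2 * Real.log 2) + (n/32) * Real.log n) := by
  obtain ⟨hli, hred, hprod⟩ := hb
  have hnbig := hB.n_ge
  have hnpos : (0:ℝ) < n := by linarith
  have hne : ∀ i < n/2, gs (ext b) i ≠ 0 := by
    intro i hi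
    have h1 := gs_ext b ⟨i, hi⟩
    simp only at h1
    rw [← h1]
    exact gramSchmidt_ne_zero _ hli
  have hpos : ∀ i < n/2, 0 < ‖gs (ext b) i‖ := fun i hi => norm_pos_iff.2 (hne i hi)
  have hP : ∀ j : ℕ, j < n/2 →
      (1 / 2 : ℝ) * (H460.NN n μ / 16) ^ (j + 1) ≤ ∏ i ∈ range (j+1), ‖gs (ext b) i‖ ∧
      ∏ i ∈ range (j+1), ‖gs (ext b) i‖ ≤ H460.TT n ^ (j + 1) * (n : ℝ) ^ ((n : ℝ) / 32) := by
    intro j hj
    have h1 := hprod ⟨j, hj⟩
    have h2 : ∏ i ∈ Finset.Iic (⟨j, hj⟩ : Fin (n/2)), ‖H460.gs b i‖ = ∏ i ∈ range (j+1), ‖gs (ext b) i‖ := by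
      rw [← prod_Iic_fin (fun i => ‖gs (ext b) i‖) ⟨j, hj⟩]
      exact Finset.prod_congr rfl fun i _ => by rw [gs_ext]
    rw [h2] at h1
    exact h1
  have hlogP : ∀ j ≤ n/2, Real.log (∏ i ∈ range j, ‖gs (ext b) i‖) = ∑ i ∈ range j, Real.log ‖gs (ext b) i‖ := by
    intro j hj
    rw [Real.log_prod]
    intro i hi
    exact (hpos i (lt_of_lt_of_le (Finset.mem_range.1 hi) hj)).ne'
  have hlogn : 0 ≤ Real.log n := Real.log_nonneg (by linarith)
  have hsum : ∀ j ≤ n/2, ∑ i ∈ range j, Real.log ‖gs (ext b) i‖ ≤ j * ((n:ℝ)^2 * Real.log 2) + (n/32) * Real.log n := by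
    intro j hj
    rcases Nat.eq_zero_or_pos j with rfl | hj0
    · simp; positivity
    · obtain ⟨j, rfl⟩ := Nat.exists_eq_succ_of_ne_zero hj0.ne'
      rw [← hlogP _ hj]
      have h1 := (hP j (by omega)).2
      have hp : 0 < ∏ i ∈ range (j+1), ‖gs (ext b) i‖ := Finset.prod_pos fun i hi =>
        hpos i (lt_of_lt_of_le (Finset.mem_range.1 hi) hj)
      have h2 := Real.log_le_log hp h1
      have hT : 0 < H460.TT n := by unfold H460.TT; positivity
      rw [Real.log_mul (by positivity) (by positivity), Real.log_pow, log_TT, Real.log_rpow hnpos] at h2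
      push_cast at h2 ⊢
      linarith
  have hlow : ∀ j < n/2, ((j:ℝ)+1) * (((n:ℝ)^2 - μ) * Real.log 2 - Real.log 16) - Real.log 2
      ≤ ∑ i ∈ range (j+1), Real.log ‖gs (ext b) i‖ := by
    intro j hj
    rw [← hlogP _ (by omega)]
    have h1 := (hP j hj).1
    have hN : 0 < H460.NN n μ := by unfold H460.NN; positivity
    have h2 := Real.log_le_log (by positivity) h1
    rw [Real.log_mul (by norm_num) (by positivity), Real.log_pow, Real.log_div hN.ne' (by norm_num),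
      log_NN hB, Real.log_div (by norm_num) (by norm_num), Real.log_one] at h2
    push_cast at h2
    linarith
  have hl2 : 0.69 < Real.log 2 := by have := Real.log_two_gt_d9; linarith
  have hl2' : Real.log 2 < 0.7 := by have := Real.log_two_lt_d9; linarith
  have hl16 : Real.log 16 = 4 * Real.log 2 := by
    rw [show (16:ℝ) = 2^4 by norm_num, Real.log_pow]; norm_num
  have hdn : ∀ j : ℕ, j ≤ n/2 → (j:ℝ) ≤ n/2 := by
    intro j hj
    have : 2 * j ≤ n := by omega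
    have : (2:ℝ) * j ≤ n := by exact_mod_cast this
    linarith
  have hlogn2 := hB.h2
  have hmu := hB.mu_le
  have hmu0 : (0:ℝ) ≤ μ := by positivity
  refine ⟨hne, ?_, ?_, ?_, hsum⟩
  · intro i hi i' hi'
    have h1 := hred ⟨i', by omega⟩ ⟨i, hi⟩ hi'
    rw [gs_ext] at h1
    rw [ext_lt b hi, real_inner_comm]
    exact h1
  · intro i hi
    have h1 := hlow i hi
    have h2 := hsum i hi.le
    rw [Finset.sum_range_succ] at h1
    have h3 := hdn (i+1) (by omega)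
    push_cast at h3
    have hi0 : (0:ℝ) ≤ i := by positivity
    have h4 : Real.log (Real.sqrt n) ≤ Real.log ‖gs (ext b) i‖ := by
      rw [Real.log_sqrt hnpos.le]
      have e1 : ((i:ℝ)+1) * (((n:ℝ)^2 - μ) * Real.log 2 - Real.log 16) - i * ((n:ℝ)^2 * Real.log 2)
          = (n:ℝ)^2 * Real.log 2 - ((i:ℝ)+1) * (μ + 4) * Real.log 2 := by rw [hl16]; ring
      have e2 : ((i:ℝ)+1) * (μ + 4) * Real.log 2 ≤ (n/2) * (n/8000 + 4) * 0.7 := by
        gcongr
      have e3 : (n/32) * Real.log n ≤ (n/32) * (n/1000) := by gcongr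
      have e4 : (n:ℝ)^2 * 0.69 ≤ (n:ℝ)^2 * Real.log 2 := by gcongr
      nlinarith
    exact (Real.log_le_log_iff (Real.sqrt_pos.2 hnpos) (hpos i hi)).1 h4
  · intro i hi
    have h1 := hsum (i+1) (by omega)
    have hge : 0 ≤ ∑ k ∈ range i, Real.log ‖gs (ext b) k‖ := by
      rw [← hlogP i hi.le]
      apply Real.log_nonneg
      exact one_le_prod_gs (ext b) i fun k hk => hne k (by omega)
    rw [Finset.sum_range_succ] at h1
    have h3 := hdn (i+1) (by omega)
    push_cast at h3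
    have h4 : Real.log ‖gs (ext b) i‖ < Real.log (Real.sqrt n * 2 ^ (n^3)) := by
      rw [Real.log_mul (Real.sqrt_pos.2 hnpos).ne' (by positivity), Real.log_sqrt hnpos.le, Real.log_pow]
      push_cast at h1 ⊢
      have e0 : ((i:ℝ)+1) * ((n:ℝ)^2 * Real.log 2) ≤ (n/2) * ((n:ℝ)^2 * Real.log 2) := by gcongr
      have e3 : (n/32) * Real.log n ≤ (n/32) * (n/1000) := by gcongr
      have e4 : (n:ℝ)^3 * 0.69 ≤ (n:ℝ)^3 * Real.log 2 := by gcongr
      have e5 : (88000:ℝ) * n^2 ≤ (n:ℝ)^3 := by nlinarith [sq_nonneg (n:ℝ)]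
      nlinarith [sq_nonneg (n:ℝ)]
    exact (Real.log_lt_log_iff (hpos i hi) (by positivity)).1 h4

/-- `log` of the expected number of bad tuples -/
lemma final_num {n μ : ℕ} (hB : Big n μ) :
    ((n/2 : ℕ) : ℝ) * Real.log ((n:ℝ)^3) + (6 * n * ((n/2 : ℕ) : ℝ) + n * ((n/2 : ℕ) : ℝ) * Real.log 2
      + n * ((n/2 : ℕ) : ℝ) * ((n:ℝ)^2 * Real.log 2) + ((n/32) * Real.log n) * (n + ((n/2 : ℕ) : ℝ) + 1)
        - Real.log n / 2 * (n * ((n/2 : ℕ) : ℝ) - ((n/2 : ℕ) : ℝ) * (((n/2 : ℕ) : ℝ) - 1) / 2))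
      - ((n/2 : ℕ) : ℝ) * (n * (((n:ℝ)^2 - μ) * Real.log 2)) ≤ - 2 := by
  have hnbig := hB.n_ge
  have hnpos : (0:ℝ) < n := by linarith
  set d : ℝ := ((n/2 : ℕ) : ℝ) with hd
  have hd1 : d ≤ n / 2 := by
    have : 2 * (n/2) ≤ n := by omega
    have : (2:ℝ) * ((n/2 : ℕ) : ℝ) ≤ n := by exact_mod_cast this
    linarith
  have hd2 : (n - 1) / 2 ≤ d := by
    have : n ≤ 2 * (n/2) + 1 := by omega
    have : (n:ℝ) ≤ 2 * ((n/2 : ℕ) : ℝ) + 1 := by exact_mod_cast this
    linarith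
  set l := Real.log n with hl
  have hl0 : 88 + 8 * (μ:ℝ) ≤ l := hB.h1
  have hmu0 : (0:ℝ) ≤ μ := by positivity
  have hlog3 : Real.log ((n:ℝ)^3) = 3 * l := by rw [Real.log_pow]; norm_num; rfl
  have hl2' : Real.log 2 < 0.7 := by have := Real.log_two_lt_d9; linarith
  have hl20 : 0 < Real.log 2 := Real.log_pos (by norm_num)
  have hd0 : 0 ≤ d := by linarith
  rw [hlog3]
  -- main terms
  have e1 : d * (3 * l) ≤ (n/2) * (3 * l) := by gcongr
  have e2 : 6 * n * d ≤ 6 * n * (n/2) := by gcongr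
  have e3 : n * d * Real.log 2 ≤ n * (n/2) * 0.7 := by gcongr
  have e4 : (n/32) * l * (n + d + 1) ≤ (n/32) * l * (n + n/2 + 1) := by
    gcongr
  have e5 : l / 2 * ((3/8) * n * (n-1)) ≤ l / 2 * (n * d - d * (d - 1) / 2) := by
    have : (3/8) * n * (n-1) ≤ n * d - d * (d - 1) / 2 := by nlinarith
    gcongr
  have e6 : d * n * μ * Real.log 2 ≤ (n/2) * n * (μ * 0.7) := by
    have : d * n * μ * Real.log 2 = d * n * (μ * Real.log 2) := by ring
    rw [this]
    gcongr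
  have e7 : n * d * ((n:ℝ)^2 * Real.log 2) - d * (n * (((n:ℝ)^2 - μ) * Real.log 2)) = d * n * μ * Real.log 2 := by ring
  have e8 : (n:ℝ)^2 * (88 + 8 * μ) ≤ (n:ℝ)^2 * l := by gcongr
  have e9 : (88000:ℝ) * (n * l) ≤ n * (n * l) := by
    have : 0 ≤ n * l := by positivity
    nlinarith
  nlinarith

/-- the number of `a` with a bad tuple is at most a quarter of all -/
theorem card_bad {n μ q : ℕ} [Fact q.Prime] (hB : Big n μ) (hq : (H460.NN n μ) ^ n < q) :
    4 * (Nat.card {a : Fin n → ZMod q // ∃ b : Fin (n/2) → (Fin n → ℤ),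
      (∀ i, b i ∈ La q a) ∧ H460.BadTuple n μ b} : ℝ) ≤ (q:ℝ)^n := by
  classical
  have hnbig := hB.n_ge
  have hnpos : (0:ℝ) < n := by linarith
  have hn0 : 0 < n := by exact_mod_cast hnpos
  have hl2 : 0.69 < Real.log 2 := by have := Real.log_two_gt_d9; linarith
  have hl2' : Real.log 2 < 0.7 := by have := Real.log_two_lt_d9; linarith
  have hmu := hB.mu_le
  have hmu0 : (0:ℝ) ≤ μ := by positivity
  have hlogn2 := hB.h2
  have hlogn : 0 ≤ Real.log n := Real.log_nonneg (by linarith)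
  have hN : 0 < H460.NN n μ := by unfold H460.NN; positivity
  have hqpos : (0:ℝ) < q := by exact_mod_cast (Fact.out : q.Prime).pos
  have hlogq : n * (((n:ℝ)^2 - μ) * Real.log 2) ≤ Real.log q := by
    have := Real.log_le_log (by positivity) hq.le
    rw [Real.log_pow, log_NN hB] at this
    exact this
  set Bs : Finset (Fin n → ZMod q) := Finset.univ.filter fun a => ∃ b : Fin (n/2) → (Fin n → ℤ),
      (∀ i, b i ∈ La q a) ∧ H460.BadTuple n μ b with hBs
  have hcardB : (Nat.card {a : Fin n → ZMod q // ∃ b : Fin (n/2) → (Fin n → ℤ),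
      (∀ i, b i ∈ La q a) ∧ H460.BadTuple n μ b}) = Bs.card := by
    rw [Nat.card_eq_fintype_card, Fintype.card_subtype]
  rw [hcardB]
  have hch : ∀ a : Fin n → ZMod q, ∃ b : Fin (n/2) → (Fin n → ℤ),
      a ∈ Bs → (∀ i, b i ∈ La q a) ∧ H460.BadTuple n μ b := by
    intro a
    by_cases h : a ∈ Bs
    · obtain ⟨b, hb⟩ := (Finset.mem_filter.1 h).2
      exact ⟨b, fun _ => hb⟩
    · exact ⟨0, fun h' => absurd h' h⟩
  choose β hβ using hch
  set F : Finset (ℕ → Fin n → ℤ) := Bs.image (fun a => ext (β a)) with hF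
  have hFf : ∀ c ∈ F, ∃ b : Fin (n/2) → (Fin n → ℤ), c = ext b ∧ H460.BadTuple n μ b := by
    intro c hc
    obtain ⟨a, ha, rfl⟩ := Finset.mem_image.1 hc
    exact ⟨β a, rfl, (hβ a ha).2⟩
  have hcount := tuple_count (n := n) (d := n/2) hn0 (by omega) ((n:ℝ)^2 * Real.log 2)
    ((n/32) * Real.log n) (n^3) F
    (by
      intro c hc i hi
      obtain ⟨b, rfl, hb⟩ := hFf c hc
      exact ext_ge b hi)
    (by
      intro c hc
      obtain ⟨b, rfl, hb⟩ := hFf c hc
      exact (bad_facts hB b hb).1)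
    (by
      intro c hc
      obtain ⟨b, rfl, hb⟩ := hFf c hc
      exact (bad_facts hB b hb).2.1)
    (by
      intro c hc
      obtain ⟨b, rfl, hb⟩ := hFf c hc
      exact (bad_facts hB b hb).2.2.1)
    (by
      intro c hc
      obtain ⟨b, rfl, hb⟩ := hFf c hc
      exact (bad_facts hB b hb).2.2.2.1)
    (by
      intro c hc
      obtain ⟨b, rfl, hb⟩ := hFf c hc
      exact (bad_facts hB b hb).2.2.2.2)
  -- each tuple is orthogonal to few a
  have hfew : ∀ c ∈ F, ((Bs.filter fun a => ext (β a) = c).card : ℝ) * (q:ℝ)^(n/2) ≤ (q:ℝ)^n := by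
    intro c hc
    obtain ⟨b, rfl, hb⟩ := hFf c hc
    obtain ⟨hne, hred, hlow, hup, hsum⟩ := bad_facts hB b hb
    have hprodlt : ∀ j < n/2, ∏ i ∈ range (j+1), ‖gs (ext b) i‖ < q := by
      intro j hj
      have hp : 0 < ∏ i ∈ range (j+1), ‖gs (ext b) i‖ := Finset.prod_pos fun i hi =>
        norm_pos_iff.2 (hne i (by have := Finset.mem_range.1 hi; omega))
      rw [← Real.log_lt_log_iff hp hqpos, Real.log_prod (fun i hi => (norm_pos_iff.2 (hne i (by
        have := Finset.mem_range.1 hi; omega))).ne')]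
      have h1 := hsum (j+1) (by omega)
      have h3 : ((j:ℝ)+1) ≤ n/2 := by
        have : 2 * (j+1) ≤ n := by omega
        have : (2:ℝ) * (j+1) ≤ n := by exact_mod_cast this
        linarith
      push_cast at h1
      have e0 : ((j:ℝ)+1) * ((n:ℝ)^2 * Real.log 2) ≤ (n/2) * ((n:ℝ)^2 * Real.log 2) := by gcongr
      have e3 : (n/32) * Real.log n ≤ (n/32) * (n/1000) := by gcongr
      have e4 : (n:ℝ)^3 * 0.69 ≤ (n:ℝ)^3 * Real.log 2 := by gcongr
      have e5 : (88000:ℝ) * n^2 ≤ (n:ℝ)^3 := by nlinarith [sq_nonneg (n:ℝ)]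
      have e6 : n * μ * Real.log 2 ≤ n * (n/8000) * 0.7 := by gcongr
      nlinarith [sq_nonneg (n:ℝ)]
    have hli := indep_mod (q := q) (ext b) (n/2) hne hprodlt
    have h1 := card_orth (n/2) _ hli
    have h2 : (Bs.filter fun a => ext (β a) = ext b).card ≤
        Nat.card {a : Fin n → ZMod q // ∀ i : Fin (n/2), ∑ t, a t * (ext b i t : ZMod q) = 0} := by
      rw [Nat.card_eq_fintype_card, Fintype.card_subtype]
      apply Finset.card_le_card
      intro a ha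
      obtain ⟨haB, hae⟩ := Finset.mem_filter.1 ha
      rw [Finset.mem_filter]
      refine ⟨Finset.mem_univ _, fun i => ?_⟩
      have h3 := (hβ a haB).1 i
      rw [mem_La] at h3
      rw [← hae, ext_lt _ i.2]
      exact h3
    calc ((Bs.filter fun a => ext (β a) = ext b).card : ℝ) * (q:ℝ)^(n/2)
        ≤ (Nat.card {a : Fin n → ZMod q // ∀ i : Fin (n/2), ∑ t, a t * (ext b i t : ZMod q) = 0} : ℝ) * (q:ℝ)^(n/2) := by
          gcongr
      _ = (q:ℝ)^n := by exact_mod_cast h1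
  have hBcard : (Bs.card : ℝ) = ∑ c ∈ F, ((Bs.filter fun a => ext (β a) = c).card : ℝ) := by
    have := Finset.card_eq_sum_card_image (fun a => ext (β a)) Bs
    rw [this]; push_cast; rfl
  have h1 : (Bs.card : ℝ) * (q:ℝ)^(n/2) ≤ F.card * (q:ℝ)^n := by
    rw [hBcard, Finset.sum_mul]
    calc ∑ c ∈ F, ((Bs.filter fun a => ext (β a) = c).card : ℝ) * (q:ℝ)^(n/2)
        ≤ ∑ c ∈ F, (q:ℝ)^n := Finset.sum_le_sum hfew
      _ = F.card * (q:ℝ)^n := by rw [Finset.sum_const, nsmul_eq_mul]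
  -- numerics
  have h2 : 4 * (F.card : ℝ) ≤ (q:ℝ)^(n/2) := by
    rcases Nat.eq_zero_or_pos F.card with h0 | h0
    · rw [h0]; simp
    · have hFpos : (0:ℝ) < F.card := by exact_mod_cast h0
      rw [← Real.log_le_log_iff (by positivity) (by positivity), Real.log_mul (by norm_num) hFpos.ne',
        Real.log_pow]
      have h3 := Real.log_le_log hFpos hcount
      rw [Real.log_mul (by positivity) (Real.exp_ne_zero _), Real.log_exp, Real.log_pow] at h3
      have h4 := final_num hB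
      have h5 : ((n/2 : ℕ) : ℝ) * (n * (((n:ℝ)^2 - μ) * Real.log 2)) ≤ ((n/2 : ℕ) : ℝ) * Real.log q := by gcongr
      have h6 : Real.log 4 ≤ 2 := by
        rw [show (4:ℝ) = 2^2 by norm_num, Real.log_pow]; push_cast; linarith
      push_cast at h3
      linarith
  have hqd : (0:ℝ) < (q:ℝ)^(n/2) := by positivity
  have h3 : (4 * (Bs.card : ℝ)) * (q:ℝ)^(n/2) ≤ (q:ℝ)^n * (q:ℝ)^(n/2) := by
    calc (4 * (Bs.card : ℝ)) * (q:ℝ)^(n/2) = 4 * ((Bs.card : ℝ) * (q:ℝ)^(n/2)) := by ring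
      _ ≤ 4 * (F.card * (q:ℝ)^n) := by gcongr
      _ = (4 * F.card) * (q:ℝ)^n := by ring
      _ ≤ (q:ℝ)^(n/2) * (q:ℝ)^n := by gcongr
      _ = (q:ℝ)^n * (q:ℝ)^(n/2) := by ring
  exact le_of_mul_le_mul_right h3 hqd

end H139R2
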