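import Pool.Agent.H139R2.RL.Ell

set_option autoImplicit false

namespace H139R2
open MeasureTheory Finset
open scoped RealInnerProductSpace
open InnerProductSpace

/-- Gram-Schmidt vectors of a sequence of integer vectors -/
noncomputable def gs {n : ℕ} (b : ℕ → Fin n → ℤ) (i : ℕ) : EuclideanSpace ℝ (Fin n) :=
  gramSchmidt ℝ (fun i => emb (b i)) i

section
variable {E : Type*} [NormedAddCommGroup E] [InnerProductSpace ℝ E]

lemma gramSchmidt_congr (f g : ℕ → E) (i : ℕ) (h : ∀ i' ≤ i, f i' = g i') :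
    gramSchmidt ℝ f i = gramSchmidt ℝ g i := by
  induction i using Nat.strong_induction_on with
  | _ i ih =>
    rw [gramSchmidt_def, gramSchmidt_def, h i le_rfl]
    congr 1
    apply Finset.sum_congr rfl
    intro i' hi'
    rw [Finset.mem_Iio] at hi'
    rw [ih i' hi' fun k hk => h k (hk.trans hi'.le)]
end

lemma gs_congr {n : ℕ} {b c : ℕ → Fin n → ℤ} {i : ℕ} (h : ∀ i' ≤ i, b i' = c i') :
    gs b i = gs c i :=
  gramSchmidt_congr _ _ i fun i' hi' => by rw [h i' hi']

/-- size-reduced independent tuples of length `j` with bounded Gram-Schmidt lengths -/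
structure Good (n j : ℕ) (u : ℕ → ℝ) (b : ℕ → Fin n → ℤ) : Prop where
  zero : ∀ i, j ≤ i → b i = 0
  ne : ∀ i < j, gs b i ≠ 0
  red : ∀ i < j, ∀ i' < i, |⟪gs b i', emb (b i)⟫| ≤ ‖gs b i'‖ ^ 2 / 2
  cls : ∀ i < j, ‖gs b i‖ ≤ Real.sqrt n * u i

lemma exists_onb {n j : ℕ} (b : ℕ → Fin n → ℤ) (hne : ∀ i < j, gs b i ≠ 0) :
    ∃ e : OrthonormalBasis (Fin n) ℝ (EuclideanSpace ℝ (Fin n)),
      ∀ i : Fin n, (i : ℕ) < j → e i = ‖gs b i‖⁻¹ • gs b i := by
  classical
  have hv : Orthonormal ℝ (({i : Fin n | (i : ℕ) < j}).domRestrict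
      (fun i : Fin n => ‖gs b i‖⁻¹ • gs b i)) := by
    constructor
    · rintro ⟨i, hi⟩
      have : ‖gs b i‖ ≠ 0 := norm_ne_zero_iff.2 (hne i hi)
      simp [Set.domRestrict_apply, norm_smul, this]
    · rintro ⟨i, hi⟩ ⟨i', hi'⟩ hne'
      have : (i : ℕ) ≠ i' := fun h => hne' (Subtype.ext (Fin.ext h))
      have := gramSchmidt_orthogonal ℝ (fun i => emb (b i)) this
      simp only [Set.domRestrict_apply, inner_smul_left, inner_smul_right]
      unfold gs
      rw [this]; simp
  obtain ⟨e, he⟩ := hv.exists_orthonormalBasis_extension_of_card_eq (by simp)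
  exact ⟨e, fun i hi => he i hi⟩

lemma sum_high_le {n j : ℕ} (hj : j < n) (c : ℕ → Fin n → ℤ)
    (e : OrthonormalBasis (Fin n) ℝ (EuclideanSpace ℝ (Fin n)))
    (he : ∀ i : Fin n, (i : ℕ) < j → e i = ‖gs c i‖⁻¹ • gs c i)
    (hne : ∀ i < j, gs c i ≠ 0) :
    ∑ i ∈ (Finset.univ : Finset (Fin n)).filter (fun i : Fin n => j ≤ (i:ℕ)), ⟪e i, emb (c j)⟫ ^ 2 ≤ ‖gs c j‖ ^ 2 := by
  have h1 : ∀ i : Fin n, j ≤ (i:ℕ) → ⟪e i, emb (c j)⟫ = ⟪e i, gs c j⟫ := by
    intro i hi
    have h2 : emb (c j) = gs c j + ∑ i ∈ Finset.Iio j,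
        (⟪gs c i, emb (c j)⟫ / (‖gs c i‖ : ℝ) ^ 2) • gs c i :=
      gramSchmidt_def'' ℝ (fun i => emb (c i)) j
    conv_lhs => rw [h2]
    rw [inner_add_right, inner_sum]
    rw [Finset.sum_eq_zero, add_zero]
    · intro i' hi'
      rw [Finset.mem_Iio] at hi'
      rw [inner_smul_right]
      have h3 : gs c i' = ‖gs c i'‖ • e ⟨i', hi'.trans hj⟩ := by
        rw [he ⟨i', hi'.trans hj⟩ hi', smul_smul, mul_inv_cancel₀, one_smul]
        exact norm_ne_zero_iff.2 (hne i' hi')
      have h4 : ⟪e i, gs c i'⟫ = 0 := by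
        rw [h3, inner_smul_right, e.orthonormal.2 (by
          intro h; have := congrArg Fin.val h; simp at this; omega), mul_zero]
      rw [h4, mul_zero]
  calc ∑ i ∈ (Finset.univ : Finset (Fin n)).filter (fun i : Fin n => j ≤ (i:ℕ)), ⟪e i, emb (c j)⟫ ^ 2
      = ∑ i ∈ (Finset.univ : Finset (Fin n)).filter (fun i : Fin n => j ≤ (i:ℕ)), ⟪e i, gs c j⟫ ^ 2 := by
        apply Finset.sum_congr rfl
        intro i hi
        rw [h1 i (Finset.mem_filter.1 hi).2]
    _ ≤ ∑ i : Fin n, ⟪e i, gs c j⟫ ^ 2 :=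
        Finset.sum_le_sum_of_subset_of_nonneg (Finset.filter_subset _ _) fun _ _ _ => sq_nonneg _
    _ = ‖gs c j‖ ^ 2 := by
        rw [← e.sum_sq_norm_inner_right (gs c j)]
        exact Finset.sum_congr rfl fun i _ => by rw [Real.norm_eq_abs, sq_abs]

/-- per-step count bound -/
noncomputable def Kst (n : ℕ) (u : ℕ → ℝ) (j : ℕ) : ℝ :=
  Real.exp (6 * n) * (∏ i ∈ range j, (Real.sqrt n * u i)) * u j ^ (n - j)

lemma step_count {n j : ℕ} (hj : j < n) (u : ℕ → ℝ) (hu : ∀ i, 1 ≤ u i)
    (b : ℕ → Fin n → ℤ) (F : Finset (ℕ → Fin n → ℤ))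
    (hF : ∀ c ∈ F, Good n (j+1) u c ∧ ∀ i < j, c i = b i) :
    (F.card : ℝ) ≤ Kst n u j := by
  classical
  have hn : 0 < n := by omega
  have hn1 : (1:ℝ) ≤ n := by exact_mod_cast hn
  have hsn : 1 ≤ Real.sqrt n := by rw [Real.one_le_sqrt]; exact hn1
  have hupos : ∀ i, 0 < u i := fun i => by linarith [hu i]
  have hK0 : 0 ≤ Kst n u j := by
    unfold Kst
    have : 0 ≤ ∏ i ∈ range j, (Real.sqrt n * u i) := Finset.prod_nonneg fun i _ => by
      have := hupos i; positivity
    have h2 := hupos j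
    positivity
  rcases F.eq_empty_or_nonempty with rfl | ⟨c0, hc0⟩
  · simpa using hK0
  have hgs : ∀ c ∈ F, ∀ i < j, gs c i = gs c0 i := by
    intro c hc i hi
    apply gs_congr
    intro i' hi'
    rw [(hF c hc).2 i' (by omega), (hF c0 hc0).2 i' (by omega)]
  have hne0 : ∀ i < j, gs c0 i ≠ 0 := fun i hi => (hF c0 hc0).1.ne i (by omega)
  obtain ⟨e, he⟩ := exists_onb c0 hne0
  set s : Fin n → ℝ := fun i => if (i:ℕ) < j then (Real.sqrt n * u i)⁻¹ else (u j)⁻¹ with hs
  have hs0 : ∀ i, 0 < s i := by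
    intro i; simp only [hs]; split_ifs
    · have := hupos i; positivity
    · have := hupos j; positivity
  have hs1 : ∀ i, s i ≤ 1 := by
    intro i; simp only [hs]; split_ifs
    · apply inv_le_one_of_one_le₀; nlinarith [hu i]
    · exact inv_le_one_of_one_le₀ (hu j)
  set S : Finset (Fin n → ℤ) := F.image (fun c => c j) with hS
  have hinj : Set.InjOn (fun c : ℕ → Fin n → ℤ => c j) F := by
    intro c hc c' hc' h
    funext i
    rcases lt_trichotomy i j with h1 | h1 | h1
    · rw [(hF c hc).2 i h1, (hF c' hc').2 i h1]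
    · rw [h1]; exact h
    · rw [(hF c hc).1.zero i h1, (hF c' hc').1.zero i h1]
  have hcard : S.card = F.card := Finset.card_image_of_injOn hinj
  have hbound : ∀ x ∈ S, ∑ i, (s i * ⟪e i, emb x⟫)^2 ≤ (5/4) * n := by
    intro x hx
    obtain ⟨c, hc, rfl⟩ := Finset.mem_image.1 hx
    have hgood := (hF c hc).1
    have hec : ∀ i : Fin n, (i : ℕ) < j → e i = ‖gs c i‖⁻¹ • gs c i := by
      intro i hi; rw [he i hi, hgs c hc i hi]
    have hnec : ∀ i < j, gs c i ≠ 0 := fun i hi => hgood.ne i (by omega)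
    have hhigh := sum_high_le hj c e hec hnec
    rw [← Finset.sum_filter_add_sum_filter_not univ (fun i : Fin n => (i:ℕ) < j)]
    have hA : ∑ i ∈ (Finset.univ : Finset (Fin n)).filter (fun i : Fin n => (i:ℕ) < j), (s i * ⟪e i, emb (c j)⟫)^2 ≤ n / 4 := by
      calc ∑ i ∈ (Finset.univ : Finset (Fin n)).filter (fun i : Fin n => (i:ℕ) < j), (s i * ⟪e i, emb (c j)⟫)^2
          ≤ ∑ i ∈ (Finset.univ : Finset (Fin n)).filter (fun i : Fin n => (i:ℕ) < j), (1/4 : ℝ) := by
            apply Finset.sum_le_sum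
            intro i hi
            have hi' := (Finset.mem_filter.1 hi).2
            have hℓ : 0 < ‖gs c i‖ := norm_pos_iff.2 (hnec i hi')
            have h1 := hgood.red j (by omega) i hi'
            have h2 := hgood.cls i (by omega)
            have h3 : ⟪e i, emb (c j)⟫ = ‖gs c i‖⁻¹ * ⟪gs c i, emb (c j)⟫ := by
              rw [hec i hi', inner_smul_left]; simp
            have h4 : |⟪e i, emb (c j)⟫| ≤ ‖gs c i‖ / 2 := by
              rw [h3, abs_mul, abs_of_pos (inv_pos.2 hℓ)]
              calc ‖gs c i‖⁻¹ * |⟪gs c i, emb (c j)⟫| ≤ ‖gs c i‖⁻¹ * (‖gs c i‖^2/2) := by gcongr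
                _ = ‖gs c i‖ / 2 := by field_simp
            have h5 : s i = (Real.sqrt n * u i)⁻¹ := by simp [hs, hi']
            have hpos : 0 < Real.sqrt n * u i := by have := hupos i; positivity
            have h6 : |s i * ⟪e i, emb (c j)⟫| ≤ 1/2 := by
              rw [abs_mul, h5, abs_of_pos (inv_pos.2 hpos)]
              calc (Real.sqrt n * u i)⁻¹ * |⟪e i, emb (c j)⟫|
                  ≤ (Real.sqrt n * u i)⁻¹ * ((Real.sqrt n * u i)/2) := by
                    gcongr; linarith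
                _ = 1/2 := by
                    rw [← mul_div_assoc, inv_mul_cancel₀ hpos.ne']
            rw [← sq_abs]
            nlinarith [abs_nonneg (s i * ⟪e i, emb (c j)⟫)]
        _ ≤ ∑ i : Fin n, (1/4 : ℝ) :=
            Finset.sum_le_sum_of_subset_of_nonneg (Finset.filter_subset _ _) fun _ _ _ => by norm_num
        _ = n / 4 := by simp; ring
    have hB : ∑ i ∈ (Finset.univ : Finset (Fin n)).filter (fun i : Fin n => ¬ (i:ℕ) < j), (s i * ⟪e i, emb (c j)⟫)^2 ≤ n := by
      have hcl := hgood.cls j (by omega)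
      have huj := hupos j
      calc ∑ i ∈ (Finset.univ : Finset (Fin n)).filter (fun i : Fin n => ¬ (i:ℕ) < j), (s i * ⟪e i, emb (c j)⟫)^2
          = ∑ i ∈ (Finset.univ : Finset (Fin n)).filter (fun i : Fin n => j ≤ (i:ℕ)), ((u j)⁻¹)^2 * ⟪e i, emb (c j)⟫^2 := by
            apply Finset.sum_congr
            · ext i; simp
            · intro i hi
              have : ¬ (i:ℕ) < j := by simpa using (Finset.mem_filter.1 hi).2
              simp only [hs, this, if_false]; ring
        _ = ((u j)⁻¹)^2 * ∑ i ∈ (Finset.univ : Finset (Fin n)).filter (fun i : Fin n => j ≤ (i:ℕ)), ⟪e i, emb (c j)⟫^2 := by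
            rw [Finset.mul_sum]
        _ ≤ ((u j)⁻¹)^2 * (Real.sqrt n * u j)^2 := by
            gcongr
            exact hhigh.trans (by gcongr)
        _ = n := by
            rw [mul_pow, Real.sq_sqrt (by positivity)]
            field_simp
    linarith
  have hE := ellipsoid_count e s hs0 hs1 ((5/4)*n) S hbound
  rw [hcard] at hE
  have hprod : ∏ i, s i = (∏ i ∈ range j, (Real.sqrt n * u i))⁻¹ * ((u j) ^ (n-j))⁻¹ := by
    have h1 : ∏ i, s i = ∏ i ∈ range n, (if i < j then (Real.sqrt n * u i)⁻¹ else (u j)⁻¹) := by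
      rw [← Fin.prod_univ_eq_prod_range (fun i => if i < j then (Real.sqrt n * u i)⁻¹ else (u j)⁻¹) n]
    rw [h1, ← Finset.prod_range_mul_prod_Ico _ hj.le]
    congr 1
    · rw [← Finset.prod_inv_distrib]
      apply Finset.prod_congr rfl
      intro i hi; rw [if_pos (Finset.mem_range.1 hi)]
    · rw [← inv_pow]
      rw [Finset.prod_congr rfl (g := fun _ => (u j)⁻¹)]
      · simp
      · intro i hi; rw [if_neg]; have := (Finset.mem_Ico.1 hi).1; omega
  have hP1 : 0 < ∏ i ∈ range j, (Real.sqrt n * u i) := Finset.prod_pos fun i _ => by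
    have := hupos i; positivity
  have hP2 : 0 < (u j) ^ (n-j) := by have := hupos j; positivity
  rw [hprod, ← mul_inv, ← div_eq_mul_inv, div_le_iff₀ (by positivity)] at hE
  calc (F.card : ℝ) ≤ Real.exp (2 * ((5/4)*n) + 3 * n) * ((∏ i ∈ range j, (Real.sqrt n * u i)) * u j ^ (n-j)) := hE
    _ ≤ Real.exp (6 * n) * ((∏ i ∈ range j, (Real.sqrt n * u i)) * u j ^ (n-j)) := by
        gcongr; linarith
    _ = Kst n u j := by unfold Kst; ring

lemma Good.trunc {n j : ℕ} {u : ℕ → ℝ} {c : ℕ → Fin n → ℤ} (h : Good n (j+1) u c) :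
    Good n j u (fun i => if i < j then c i else 0) := by
  have hg : ∀ i < j, gs (fun i => if i < j then c i else 0) i = gs c i := by
    intro i hi
    apply gs_congr
    intro i' hi'
    rw [if_pos (by omega)]
  constructor
  · intro i hi; simp [hi]
  · intro i hi; rw [hg i hi]; exact h.ne i (by omega)
  · intro i hi i' hi'
    rw [hg i' (by omega), if_pos hi]
    exact h.red i (by omega) i' hi'
  · intro i hi; rw [hg i hi]; exact h.cls i (by omega)

theorem good_card_le {n : ℕ} (u : ℕ → ℝ) (hu : ∀ i, 1 ≤ u i) (j : ℕ) (hj : j ≤ n)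
    (F : Finset (ℕ → Fin n → ℤ)) (hF : ∀ c ∈ F, Good n j u c) :
    (F.card : ℝ) ≤ ∏ i ∈ range j, Kst n u i := by
  classical
  induction j generalizing F with
  | zero =>
    simp only [range_zero, prod_empty]
    have : F.card ≤ 1 := by
      apply Finset.card_le_one.2
      intro a ha b hb
      funext i
      rw [(hF a ha).zero i (Nat.zero_le _), (hF b hb).zero i (Nat.zero_le _)]
    exact_mod_cast this
  | succ j ih =>
    rw [Finset.prod_range_succ]
    set g : (ℕ → Fin n → ℤ) → (ℕ → Fin n → ℤ) := fun c => fun i => if i < j then c i else 0 with hg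
    have h1 := ih (by omega) (F.image g) (by
      intro c hc
      obtain ⟨c', hc', rfl⟩ := Finset.mem_image.1 hc
      exact (hF c' hc').trunc)
    have h2 : (F.card : ℝ) = ∑ b ∈ F.image g, ((F.filter fun c => g c = b).card : ℝ) := by
      have := Finset.card_eq_sum_card_image g F
      rw [this]; push_cast; rfl
    rw [h2]
    calc ∑ b ∈ F.image g, ((F.filter fun c => g c = b).card : ℝ)
        ≤ ∑ b ∈ F.image g, Kst n u j := by
          apply Finset.sum_le_sum
          intro b hb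
          apply step_count (by omega) u hu b
          intro c hc
          obtain ⟨hc1, hc2⟩ := Finset.mem_filter.1 hc
          refine ⟨hF c hc1, fun i hi => ?_⟩
          rw [← hc2]; simp [hg, hi]
      _ = (F.image g).card * Kst n u j := by rw [Finset.sum_const, nsmul_eq_mul]
      _ ≤ (∏ i ∈ range j, Kst n u i) * Kst n u j := by
          apply mul_le_mul_of_nonneg_right h1
          unfold Kst
          have hupos : ∀ i, 0 < u i := fun i => by linarith [hu i]
          have : 0 ≤ ∏ i ∈ range j, (Real.sqrt n * u i) := Finset.prod_nonneg fun i _ => by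
            have := hupos i; positivity
          have h2 := hupos j
          positivity

end H139R2
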