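import Mathlib

set_option autoImplicit false

namespace H139R2
open MeasureTheory
open scoped RealInnerProductSpace

/-- integer vectors inside Euclidean space -/
noncomputable def emb {n : ℕ} (x : Fin n → ℤ) : EuclideanSpace ℝ (Fin n) :=
  WithLp.toLp 2 (fun i => (x i : ℝ))

@[simp] lemma emb_apply {n : ℕ} (x : Fin n → ℤ) (i : Fin n) : emb x i = (x i : ℝ) := rfl

lemma integrable_gauss1 (s : ℝ) (hs : 0 < s) : Integrable (fun y : ℝ => Real.exp (-(s*y)^2)) := by
  have := integrable_exp_neg_mul_sq (b := s^2) (by positivity)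
  refine this.congr (Filter.Eventually.of_forall fun y => ?_)
  simp only; congr 1; ring

lemma integral_gauss1 (s : ℝ) (hs : 0 < s) :
    ∫ y : ℝ, Real.exp (-(s*y)^2) = Real.sqrt Real.pi / s := by
  have := integral_gaussian (s^2)
  have e : (fun y : ℝ => Real.exp (-(s*y)^2)) = fun y => Real.exp (-(s^2) * y^2) := by
    funext y; congr 1; ring
  rw [e, this, Real.sqrt_div' _ (by positivity), Real.sqrt_sq hs.le]

lemma integral_gaussn {n : ℕ} (e : OrthonormalBasis (Fin n) ℝ (EuclideanSpace ℝ (Fin n)))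
    (s : Fin n → ℝ) (hs : ∀ i, 0 < s i) :
    Integrable (fun y : EuclideanSpace ℝ (Fin n) => Real.exp (-∑ i, (s i * ⟪e i, y⟫)^2)) ∧
    ∫ y : EuclideanSpace ℝ (Fin n), Real.exp (-∑ i, (s i * ⟪e i, y⟫)^2)
      = ∏ i, (Real.sqrt Real.pi / s i) := by
  have h1 : ∀ y : Fin n → ℝ, Real.exp (-∑ i, (s i * y i)^2) = ∏ i, Real.exp (-(s i * y i)^2) := by
    intro y; rw [← Real.exp_sum]; simp
  have hI : Integrable (fun y : Fin n → ℝ => Real.exp (-∑ i, (s i * y i)^2)) := by
    simp_rw [h1]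
    exact Integrable.fintype_prod (f := fun i (y : ℝ) => Real.exp (-(s i * y)^2))
      (fun i => integrable_gauss1 (s i) (hs i))
  have hJ : ∫ y : Fin n → ℝ, Real.exp (-∑ i, (s i * y i)^2) = ∏ i, (Real.sqrt Real.pi / s i) := by
    simp_rw [h1]
    rw [integral_fintype_prod_volume_eq_prod (fun i (y : ℝ) => Real.exp (-(s i * y)^2))]
    exact Finset.prod_congr rfl fun i _ => integral_gauss1 _ (hs i)
  have hmp : MeasurePreserving (fun y : EuclideanSpace ℝ (Fin n) => (WithLp.ofLp (e.repr y) : Fin n → ℝ)) :=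
    (PiLp.volume_preserving_ofLp (Fin n)).comp e.measurePreserving_repr
  have hme : MeasurableEmbedding (fun y : EuclideanSpace ℝ (Fin n) => (WithLp.ofLp (e.repr y) : Fin n → ℝ)) :=
    (MeasurableEquiv.toLp 2 (Fin n → ℝ)).symm.measurableEmbedding.comp
      e.repr.toHomeomorph.measurableEmbedding
  have hc : (fun y : EuclideanSpace ℝ (Fin n) => Real.exp (-∑ i, (s i * ⟪e i, y⟫)^2))
      = (fun y : Fin n → ℝ => Real.exp (-∑ i, (s i * y i)^2)) ∘
        (fun y : EuclideanSpace ℝ (Fin n) => (WithLp.ofLp (e.repr y) : Fin n → ℝ)) := by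
    funext y
    simp [OrthonormalBasis.repr_apply_apply]
  constructor
  · rw [hc]; exact (hmp.integrable_comp_emb hme).2 hI
  · rw [← hJ, ← hmp.integral_comp hme]
    simp [OrthonormalBasis.repr_apply_apply]


/-- half-open unit cube with corner `x` -/
def cubeAt {n : ℕ} (x : Fin n → ℤ) : Set (EuclideanSpace ℝ (Fin n)) :=
  {y | ∀ i, (x i : ℝ) ≤ y i ∧ y i < x i + 1}

lemma cubeAt_eq {n : ℕ} (x : Fin n → ℤ) :
    cubeAt x = (WithLp.ofLp : EuclideanSpace ℝ (Fin n) → (Fin n → ℝ)) ⁻¹'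
      (Set.univ.pi fun i => Set.Ico (x i : ℝ) (x i + 1)) := by
  ext y; simp [cubeAt, Set.mem_pi]

lemma measurable_cubeAt {n : ℕ} (x : Fin n → ℤ) : MeasurableSet (cubeAt x) := by
  rw [cubeAt_eq]
  exact (PiLp.volume_preserving_ofLp (Fin n)).measurable
    (MeasurableSet.univ_pi fun i => measurableSet_Ico)

lemma volume_cubeAt {n : ℕ} (x : Fin n → ℤ) : volume (cubeAt x) = 1 := by
  rw [cubeAt_eq, (PiLp.volume_preserving_ofLp (Fin n)).measure_preimage
    (MeasurableSet.univ_pi fun i => measurableSet_Ico).nullMeasurableSet, volume_pi_pi]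
  simp

lemma disjoint_cubeAt {n : ℕ} {x y : Fin n → ℤ} (h : x ≠ y) : Disjoint (cubeAt x) (cubeAt y) := by
  rw [Set.disjoint_left]
  intro z hz hz'
  apply h
  funext i
  have h1 := (hz i); have h2 := hz' i
  have e1 : ⌊z i⌋ = x i := Int.floor_eq_iff.2 h1
  have e2 : ⌊z i⌋ = y i := Int.floor_eq_iff.2 h2
  exact e1.symm.trans e2

lemma norm_sub_le_of_mem_cube {n : ℕ} {x : Fin n → ℤ} {y : EuclideanSpace ℝ (Fin n)}
    (h : y ∈ cubeAt x) : ‖y - emb x‖ ^ 2 ≤ n := by
  rw [EuclideanSpace.norm_sq_eq]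
  calc ∑ i, ‖(y - emb x) i‖ ^ 2 ≤ ∑ i : Fin n, (1:ℝ) := by
        apply Finset.sum_le_sum
        intro i _
        have h1 := h i
        have : (y - emb x) i = y i - x i := rfl
        rw [this, Real.norm_eq_abs, sq_abs]
        nlinarith [h1.1, h1.2]
    _ = n := by simp

/-- Counting integer points in an ellipsoid with axes of length at least one. -/
theorem ellipsoid_count {n : ℕ} (e : OrthonormalBasis (Fin n) ℝ (EuclideanSpace ℝ (Fin n)))
    (s : Fin n → ℝ) (hs0 : ∀ i, 0 < s i) (hs1 : ∀ i, s i ≤ 1) (R : ℝ)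
    (S : Finset (Fin n → ℤ)) (hS : ∀ x ∈ S, ∑ i, (s i * ⟪e i, emb x⟫)^2 ≤ R) :
    (S.card : ℝ) * ∏ i, s i ≤ Real.exp (2 * R + 3 * n) := by
  obtain ⟨hI, hJ⟩ := integral_gaussn e s hs0
  set q : EuclideanSpace ℝ (Fin n) → ℝ := fun y => ∑ i, (s i * ⟪e i, y⟫)^2 with hq
  have hcube : ∀ x ∈ S, ∀ y ∈ cubeAt x, q y ≤ 2 * R + 2 * n := by
    intro x hx y hy
    have h1 := hS x hx
    have h2 : ∑ i, (s i * ⟪e i, y - emb x⟫)^2 ≤ n := by
      calc ∑ i, (s i * ⟪e i, y - emb x⟫)^2 ≤ ∑ i, (⟪e i, y - emb x⟫)^2 := by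
            apply Finset.sum_le_sum; intro i _
            rw [mul_pow]
            have : (s i)^2 ≤ 1 := by nlinarith [hs0 i, hs1 i]
            nlinarith [sq_nonneg (⟪e i, y - emb x⟫)]
        _ = ‖y - emb x‖^2 := by
            rw [← e.sum_sq_norm_inner_right (y - emb x)]
            exact Finset.sum_congr rfl fun i _ => by rw [Real.norm_eq_abs, sq_abs]
        _ ≤ n := norm_sub_le_of_mem_cube hy
    calc q y = ∑ i, (s i * ⟪e i, y⟫)^2 := rfl
      _ ≤ ∑ i, (2 * (s i * ⟪e i, emb x⟫)^2 + 2 * (s i * ⟪e i, y - emb x⟫)^2) := by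
          apply Finset.sum_le_sum; intro i _
          have : ⟪e i, y⟫ = ⟪e i, emb x⟫ + ⟪e i, y - emb x⟫ := by
            rw [← inner_add_right]; simp
          rw [this, mul_add]
          nlinarith [sq_nonneg (s i * ⟪e i, emb x⟫ - s i * ⟪e i, y - emb x⟫)]
      _ = 2 * ∑ i, (s i * ⟪e i, emb x⟫)^2 + 2 * ∑ i, (s i * ⟪e i, y - emb x⟫)^2 := by
          rw [Finset.sum_add_distrib, Finset.mul_sum, Finset.mul_sum]
      _ ≤ 2 * R + 2 * n := by linarith
  set U : Set (EuclideanSpace ℝ (Fin n)) := ⋃ x ∈ S, cubeAt x with hU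
  have hUm : MeasurableSet U := Finset.measurableSet_biUnion _ fun x _ => measurable_cubeAt x
  have hvol : volume U = S.card := by
    rw [hU, measure_biUnion_finset (fun x _ y _ h => disjoint_cubeAt h) fun x _ => measurable_cubeAt x]
    simp [volume_cubeAt]
  have hvolr : (volume U).toReal = S.card := by rw [hvol]; simp
  have hint : ((volume U).toReal) ≤ ∫ y, Real.exp (2 * R + 2 * n) * Real.exp (-q y) := by
    have hfin : volume U ≠ ⊤ := by rw [hvol]; simp
    calc (volume U).toReal = ∫ y in U, (1:ℝ) := by simp [Measure.real]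
      _ ≤ ∫ y in U, Real.exp (2 * R + 2 * n) * Real.exp (-q y) := by
          apply setIntegral_mono_on
          · exact integrableOn_const hfin
          · exact (hI.const_mul _).integrableOn
          · exact hUm
          · intro y hy
            obtain ⟨x, hx, hxy⟩ := Set.mem_iUnion₂.1 hy
            rw [← Real.exp_add]
            apply Real.one_le_exp
            have := hcube x hx y hxy
            linarith
      _ ≤ ∫ y, Real.exp (2 * R + 2 * n) * Real.exp (-q y) := by
          apply setIntegral_le_integral (hI.const_mul _)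
          exact Filter.Eventually.of_forall fun y => by positivity
  rw [hvolr, integral_const_mul, hJ] at hint
  have hP : 0 < ∏ i, s i := Finset.prod_pos fun i _ => hs0 i
  rw [Finset.prod_div_distrib, Finset.prod_const, Finset.card_univ, Fintype.card_fin] at hint
  have hpi : Real.sqrt Real.pi ≤ Real.exp 1 := by
    rw [Real.sqrt_le_left (by positivity)]
    have h1 := Real.pi_lt_d2
    have h2 := Real.exp_one_gt_d9
    nlinarith
  have hpin : Real.sqrt Real.pi ^ n ≤ Real.exp n := by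
    calc Real.sqrt Real.pi ^ n ≤ (Real.exp 1)^n := pow_le_pow_left₀ (by positivity) hpi n
      _ = Real.exp n := by rw [← Real.exp_nat_mul]; simp
  calc (S.card : ℝ) * ∏ i, s i
      ≤ (Real.exp (2 * R + 2 * n) * (Real.sqrt Real.pi ^ n / ∏ i, s i)) * ∏ i, s i :=
        mul_le_mul_of_nonneg_right hint hP.le
    _ = Real.exp (2 * R + 2 * n) * Real.sqrt Real.pi ^ n := by field_simp
    _ ≤ Real.exp (2 * R + 2 * n) * Real.exp n := by gcongr
    _ = Real.exp (2 * R + 3 * n) := by rw [← Real.exp_add]; congr 1; ring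

end H139R2
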