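import Pool.Agent.H139R2.RL.Cnt

set_option autoImplicit false
set_option linter.unusedSectionVars false

namespace H139R2
open MeasureTheory Finset
open scoped RealInnerProductSpace
open InnerProductSpace

section
variable {E : Type*} [NormedAddCommGroup E] [InnerProductSpace ℝ E] [FiniteDimensional ℝ E]

/-- span of the vectors before `i` -/
noncomputable def Ub (F : ℕ → E) (i : ℕ) : Submodule ℝ E := Submodule.span ℝ (F '' Set.Iio i)

lemma gs_mem_orth (F : ℕ → E) (i : ℕ) : gramSchmidt ℝ F i ∈ (Ub F i)ᗮ := by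
  unfold Ub
  rw [← span_gramSchmidt_Iio]
  rw [Submodule.mem_orthogonal]
  intro u hu
  induction hu using Submodule.span_induction with
  | mem x hx =>
    obtain ⟨k, hk, rfl⟩ := hx
    exact gramSchmidt_orthogonal ℝ F (ne_of_lt hk)
  | zero => simp
  | add x y _ _ hx hy => rw [inner_add_left, hx, hy, add_zero]
  | smul a x _ hx => rw [inner_smul_left, hx, mul_zero]

lemma sub_gs_mem (F : ℕ → E) (i : ℕ) : F i - gramSchmidt ℝ F i ∈ Ub F i := by
  unfold Ub
  rw [← span_gramSchmidt_Iio ℝ F i]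
  have h := gramSchmidt_def'' ℝ F i
  have : F i - gramSchmidt ℝ F i = ∑ i' ∈ Finset.Iio i,
      (⟪gramSchmidt ℝ F i', F i⟫ / ((‖gramSchmidt ℝ F i'‖ : ℝ)) ^ 2) • gramSchmidt ℝ F i' := by
    conv_lhs => rw [h]
    simp
  rw [this]
  apply Submodule.sum_mem
  intro i' hi'
  apply Submodule.smul_mem
  apply Submodule.subset_span
  exact ⟨i', by simpa using hi', rfl⟩

lemma gs_eq_proj (F : ℕ → E) (i : ℕ) :
    gramSchmidt ℝ F i = (Ub F i)ᗮ.starProjection (F i) := by
  symm
  apply Submodule.eq_starProjection_of_mem_orthogonal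
  · exact gs_mem_orth F i
  · rw [Submodule.orthogonal_orthogonal]; exact sub_gs_mem F i

lemma gs_unique (F : ℕ → E) (i : ℕ) (z : E) (hz : z ∈ (Ub F i)ᗮ) (h : F i - z ∈ Ub F i) :
    gramSchmidt ℝ F i = z := by
  rw [gs_eq_proj]
  apply Submodule.eq_starProjection_of_mem_orthogonal hz
  rw [Submodule.orthogonal_orthogonal]; exact h

/-- Gram-Schmidt vectors only depend on the flag of spans. -/
lemma gs_of_flag (F G : ℕ → E) (i : ℕ) (hU : Ub F i = Ub G i) (h : F i - G i ∈ Ub F i) :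
    gramSchmidt ℝ F i = gramSchmidt ℝ G i := by
  apply gs_unique
  · rw [hU]; exact gs_mem_orth G i
  · have h2 := sub_gs_mem G i
    rw [← hU] at h2
    have : F i - gramSchmidt ℝ G i = (F i - G i) + (G i - gramSchmidt ℝ G i) := by abel
    rw [this]
    exact Submodule.add_mem _ h h2

lemma Ub_succ (F : ℕ → E) (i : ℕ) : Ub F (i+1) = Ub F i ⊔ Submodule.span ℝ {F i} := by
  unfold Ub
  rw [← Submodule.span_union]
  congr 1
  ext x
  simp only [Set.mem_image, Set.mem_Iio, Set.mem_union, Set.mem_singleton_iff]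
  constructor
  · rintro ⟨k, hk, rfl⟩
    rcases Nat.lt_succ_iff_lt_or_eq.1 hk with h | h
    · exact Or.inl ⟨k, h, rfl⟩
    · subst h; exact Or.inr rfl
  · rintro (⟨k, hk, rfl⟩ | rfl)
    · exact ⟨k, by omega, rfl⟩
    · exact ⟨i, by omega, rfl⟩

lemma Ub_mono (F : ℕ → E) {i j : ℕ} (h : i ≤ j) : Ub F i ≤ Ub F j := by
  unfold Ub
  apply Submodule.span_mono
  apply Set.image_mono
  exact Set.Iio_subset_Iio h

lemma mem_Ub (F : ℕ → E) {i j : ℕ} (h : i < j) : F i ∈ Ub F j :=
  Submodule.subset_span ⟨i, h, rfl⟩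

lemma Ub_congr_flag (F G : ℕ → E) (j : ℕ)
    (h : ∀ i < j, F i - G i ∈ Ub F i) : Ub F j = Ub G j := by
  induction j with
  | zero => simp [Ub]
  | succ j ih =>
    have ih' := ih fun i hi => h i (by omega)
    rw [Ub_succ, Ub_succ, ← ih']
    have h1 := h j (by omega)
    apply le_antisymm
    · apply sup_le le_sup_left
      rw [Submodule.span_singleton_le_iff_mem]
      have : F j = (F j - G j) + G j := by abel
      rw [this]
      exact Submodule.add_mem_sup h1 (Submodule.mem_span_singleton_self _)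
    · apply sup_le le_sup_left
      rw [Submodule.span_singleton_le_iff_mem]
      have : G j = -(F j - G j) + F j := by abel
      rw [this]
      exact Submodule.add_mem_sup (Submodule.neg_mem _ h1) (Submodule.mem_span_singleton_self _)

lemma gs_congr_flag (F G : ℕ → E) (j : ℕ)
    (h : ∀ i ≤ j, F i - G i ∈ Ub F i) : gramSchmidt ℝ F j = gramSchmidt ℝ G j :=
  gs_of_flag F G j (Ub_congr_flag F G j fun i hi => h i hi.le) (h j le_rfl)

lemma gs_ne_zero_iff (F : ℕ → E) (i : ℕ) : gramSchmidt ℝ F i ≠ 0 ↔ F i ∉ Ub F i := by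
  constructor
  · intro h h'
    apply h
    have h1 := sub_gs_mem F i
    have h2 : gramSchmidt ℝ F i ∈ Ub F i := by
      have : gramSchmidt ℝ F i = F i - (F i - gramSchmidt ℝ F i) := by abel
      rw [this]; exact Submodule.sub_mem _ h' h1
    have := (Submodule.mem_orthogonal _ _).1 (gs_mem_orth F i) _ h2
    exact inner_self_eq_zero.1 this
  · intro h h'
    apply h
    have h1 := sub_gs_mem F i
    rwa [h', sub_zero] at h1

/-- determinant of the Gram matrix is the product of squares of Gram-Schmidt lengths -/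
lemma det_gram (F : ℕ → E) (j : ℕ) :
    (Matrix.of fun (i k : Fin j) => ⟪F i, F k⟫).det = ∏ i ∈ range j, ‖gramSchmidt ℝ F i‖ ^ 2 := by
  classical
  set M : Matrix (Fin j) (Fin j) ℝ := Matrix.of fun i k =>
    if i = k then 1 else if (i : ℕ) < k then
      ⟪gramSchmidt ℝ F i, F k⟫ / (‖gramSchmidt ℝ F i‖ : ℝ) ^ 2 else 0 with hM
  set D : Matrix (Fin j) (Fin j) ℝ := Matrix.diagonal fun i => ‖gramSchmidt ℝ F i‖ ^ 2 with hD
  have hF : ∀ k : Fin j, F k = ∑ i : Fin j, M i k • gramSchmidt ℝ F i := by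
    intro k
    conv_lhs => rw [gramSchmidt_def'' ℝ F k]
    have h1 : ∑ i : Fin j, M i k • gramSchmidt ℝ F i
        = ∑ i ∈ range j, (if i = (k:ℕ) then (1:ℝ) else if i < (k:ℕ) then
          ⟪gramSchmidt ℝ F i, F k⟫ / (‖gramSchmidt ℝ F i‖ : ℝ) ^ 2 else 0) • gramSchmidt ℝ F i := by
      rw [← Fin.sum_univ_eq_sum_range (fun i => (if i = (k:ℕ) then (1:ℝ) else if i < (k:ℕ) then
          ⟪gramSchmidt ℝ F i, F k⟫ / (‖gramSchmidt ℝ F i‖ : ℝ) ^ 2 else 0) • gramSchmidt ℝ F i)]
      apply Finset.sum_congr rfl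
      intro i _
      simp [hM, Fin.ext_iff]
    rw [h1]
    have hk := k.2
    rw [← Finset.sum_range_add_sum_Ico _ hk, Finset.sum_range_succ, Finset.sum_eq_zero (s := Finset.Ico _ _)]
    · rw [add_zero, add_comm]
      congr 1
      · rw [Nat.Iio_eq_range]
        apply Finset.sum_congr rfl
        intro i hi
        have := Finset.mem_range.1 hi
        rw [if_neg (by omega), if_pos this]
        norm_num
      · simp
    · intro i hi
      have := (Finset.mem_Ico.1 hi).1
      rw [if_neg (by omega), if_neg (by omega), zero_smul]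
  have hgram : (Matrix.of fun (i k : Fin j) => ⟪F i, F k⟫) = M.transpose * D * M := by
    ext i k
    rw [Matrix.of_apply]
    have e1 : (⟪F i, F k⟫ : ℝ) = ⟪∑ i' : Fin j, M i' i • gramSchmidt ℝ F i',
        ∑ k' : Fin j, M k' k • gramSchmidt ℝ F k'⟫ := by rw [← hF i, ← hF k]
    rw [e1, sum_inner]
    simp_rw [inner_sum, inner_smul_left, inner_smul_right]
    rw [Matrix.mul_apply]
    have h3 : ∀ i' : Fin j, ∑ k' : Fin j, (starRingEnd ℝ) (M i' i) *
        (M k' k * ⟪gramSchmidt ℝ F i', gramSchmidt ℝ F k'⟫)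
        = M i' i * ‖gramSchmidt ℝ F i'‖ ^ 2 * M i' k := by
      intro i'
      rw [Finset.sum_eq_single i']
      · rw [real_inner_self_eq_norm_sq]; simp; ring
      · intro k' _ hk'
        rw [gramSchmidt_orthogonal ℝ F (fun h => hk' (Fin.ext h.symm))]; simp
      · simp
    rw [Finset.sum_congr rfl fun i' _ => h3 i']
    apply Finset.sum_congr rfl
    intro i' _
    rw [Matrix.mul_apply, Finset.sum_eq_single i']
    · simp [hD]
    · intro k' _ hk'
      simp [hD, Matrix.diagonal_apply_ne _ hk']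
    · simp
  have hdetM : M.det = 1 := by
    rw [Matrix.det_of_isUpperTriangular]
    · simp [hM]
    · intro i k hik
      have : (k:ℕ) < i := hik
      simp only [hM, Matrix.of_apply]
      rw [if_neg (by intro h; rw [h] at this; omega), if_neg (by omega)]
  rw [hgram, Matrix.det_mul, Matrix.det_mul, Matrix.det_transpose, hdetM, hD, Matrix.det_diagonal]
  rw [one_mul, mul_one, ← Fin.prod_univ_eq_prod_range (fun i => ‖gramSchmidt ℝ F i‖ ^ 2)]

end

lemma inner_emb {n : ℕ} (x y : Fin n → ℤ) : (⟪emb x, emb y⟫ : ℝ) = ((∑ t, x t * y t : ℤ) : ℝ) := by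
  rw [PiLp.inner_apply]
  simp [mul_comm]

/-- integer independent vectors have Gram determinant at least one -/
lemma one_le_prod_gs {n : ℕ} (b : ℕ → Fin n → ℤ) (j : ℕ) (h : ∀ i < j, gs b i ≠ 0) :
    1 ≤ ∏ i ∈ range j, ‖gs b i‖ := by
  have h1 := det_gram (fun i => emb (b i)) j
  have h2 : (Matrix.of fun (i k : Fin j) => (⟪emb (b i), emb (b k)⟫ : ℝ))
      = (Matrix.of fun (i k : Fin j) => (∑ t, b i t * b k t : ℤ)).map (Int.cast : ℤ → ℝ) := by
    ext i k; simp [inner_emb]
  rw [h2] at h1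
  have h3 : ((Matrix.of fun (i k : Fin j) => (∑ t, b i t * b k t : ℤ)).map (Int.cast : ℤ → ℝ)).det
     = (((Matrix.of fun (i k : Fin j) => (∑ t, b i t * b k t : ℤ)).det : ℤ) : ℝ) :=
    (Int.cast_det _).symm
  rw [h3] at h1
  have hpos : 0 < ∏ i ∈ range j, ‖gs b i‖ := Finset.prod_pos fun i hi =>
    norm_pos_iff.2 (h i (Finset.mem_range.1 hi))
  have h4 : ∏ i ∈ range j, ‖gramSchmidt ℝ (fun i => emb (b i)) i‖ ^ 2 = (∏ i ∈ range j, ‖gs b i‖)^2 := by
    rw [← Finset.prod_pow]; rfl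
  rw [h4] at h1
  have h5 : (0:ℝ) < (((Matrix.of fun (i k : Fin j) => (∑ t, b i t * b k t : ℤ)).det : ℤ) : ℝ) := by
    rw [h1]; positivity
  have h6 : (1:ℤ) ≤ (Matrix.of fun (i k : Fin j) => (∑ t, b i t * b k t : ℤ)).det := by
    have : (0:ℤ) < (Matrix.of fun (i k : Fin j) => (∑ t, b i t * b k t : ℤ)).det := by exact_mod_cast h5
    omega
  have h7 : (1:ℝ) ≤ (∏ i ∈ range j, ‖gs b i‖)^2 := by
    rw [← h1]; exact_mod_cast h6
  by_contra hlt
  push Not at hlt
  nlinarith

end H139R2
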