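import Pool.Agent.H139R2.RL.Bad

set_option autoImplicit false
set_option linter.unusedSectionVars false

namespace H139R2
open MeasureTheory Finset
open scoped RealInnerProductSpace
open InnerProductSpace

lemma gauss_finsum {n : ℕ} (c : ℝ) (hc : 0 < c) (F : Finset (Fin n → ℤ)) :
    ∑ x ∈ F, Real.exp (-c * ‖emb x‖^2) ≤ Real.exp (c * n) * (Real.sqrt Real.pi / Real.sqrt (c/2))^n := by
  have hs : 0 < Real.sqrt (c/2) := Real.sqrt_pos.2 (by positivity)
  obtain ⟨hI, hJ⟩ := integral_gaussn (EuclideanSpace.basisFun (Fin n) ℝ) (fun _ => Real.sqrt (c/2)) (fun _ => hs)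
  have hform : ∀ y : EuclideanSpace ℝ (Fin n),
      ∑ i, (Real.sqrt (c/2) * ⟪EuclideanSpace.basisFun (Fin n) ℝ i, y⟫)^2 = (c/2) * ‖y‖^2 := by
    intro y
    have : ∀ i, (Real.sqrt (c/2) * ⟪EuclideanSpace.basisFun (Fin n) ℝ i, y⟫)^2
        = (c/2) * ‖⟪EuclideanSpace.basisFun (Fin n) ℝ i, y⟫‖^2 := by
      intro i
      rw [mul_pow, Real.sq_sqrt (by positivity), Real.norm_eq_abs, sq_abs]
    rw [Finset.sum_congr rfl fun i _ => this i, ← Finset.mul_sum,
      OrthonormalBasis.sum_sq_norm_inner_right]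
  simp_rw [hform] at hI hJ
  set g : EuclideanSpace ℝ (Fin n) → ℝ := fun y => Real.exp (c * n) * Real.exp (-((c/2) * ‖y‖^2)) with hg
  have hgI : Integrable g := hI.const_mul _
  have hpt : ∀ x : Fin n → ℤ, ∀ y ∈ cubeAt x, Real.exp (-c * ‖emb x‖^2) ≤ g y := by
    intro x y hy
    simp only [hg]
    rw [← Real.exp_add]
    apply Real.exp_le_exp.2
    have h1 := norm_sub_le_of_mem_cube hy
    have h2 : ‖y‖^2 ≤ 2 * ‖emb x‖^2 + 2 * ‖y - emb x‖^2 := by
      have h3 : ‖y‖ ≤ ‖emb x‖ + ‖y - emb x‖ := by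
        calc ‖y‖ = ‖emb x + (y - emb x)‖ := by congr 1; abel
          _ ≤ _ := norm_add_le _ _
      nlinarith [norm_nonneg y, sq_nonneg (‖emb x‖ - ‖y - emb x‖)]
    nlinarith
  have hint : ∀ x : Fin n → ℤ, Real.exp (-c * ‖emb x‖^2) ≤ ∫ y in cubeAt x, g y := by
    intro x
    have hfin : volume (cubeAt x) ≠ ⊤ := by rw [volume_cubeAt]; simp
    calc Real.exp (-c * ‖emb x‖^2) = ∫ y in cubeAt x, Real.exp (-c * ‖emb x‖^2) := by
          simp [Measure.real, volume_cubeAt]
      _ ≤ ∫ y in cubeAt x, g y := by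
          apply setIntegral_mono_on
          · exact integrableOn_const hfin
          · exact hgI.integrableOn
          · exact measurable_cubeAt x
          · exact hpt x
  calc ∑ x ∈ F, Real.exp (-c * ‖emb x‖^2) ≤ ∑ x ∈ F, ∫ y in cubeAt x, g y :=
        Finset.sum_le_sum fun x _ => hint x
    _ = ∫ y in ⋃ x ∈ F, cubeAt x, g y := by
        rw [integral_biUnion_finset F (fun x _ => measurable_cubeAt x)
          (fun x _ y _ h => disjoint_cubeAt h) (fun x _ => hgI.integrableOn)]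
    _ ≤ ∫ y, g y := by
        apply setIntegral_le_integral hgI
        exact Filter.Eventually.of_forall fun y => by simp only [hg, Pi.zero_apply]; positivity
    _ = Real.exp (c * n) * (Real.sqrt Real.pi / Real.sqrt (c/2))^n := by
        simp only [hg]
        rw [integral_const_mul, hJ, Finset.prod_const, Finset.card_univ, Fintype.card_fin]

lemma gauss_summable {n : ℕ} (c : ℝ) (hc : 0 < c) :
    Summable (fun x : Fin n → ℤ => Real.exp (-c * ‖emb x‖^2)) :=
  summable_of_sum_le (fun _ => (Real.exp_pos _).le) (gauss_finsum c hc)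

lemma gauss_tsum {n : ℕ} (c : ℝ) (hc : 0 < c) :
    ∑' x : Fin n → ℤ, Real.exp (-c * ‖emb x‖^2) ≤ Real.exp (c * n) * (Real.sqrt Real.pi / Real.sqrt (c/2))^n :=
  Real.tsum_le_of_sum_le (fun _ => (Real.exp_pos _).le) (gauss_finsum c hc)

lemma emb_injective {n : ℕ} : Function.Injective (emb (n := n)) := by
  intro x y h
  funext i
  have := congrArg (fun v : EuclideanSpace ℝ (Fin n) => v i) h
  simpa using this

open Classical in
/-- theta function of the mod `q` lattice as a sum over all integer vectors -/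
lemma th_La {n q : ℕ} (a : Fin n → ZMod q) (t : ℝ) (ht : 0 < t) :
    H460.th ((La q a).map (H460.emb (Fin n))) 0 t
      = 1 + ∑' x : Fin n → ℤ, (if x ∈ La q a ∧ x ≠ 0 then Real.exp (-t * ‖emb x‖^2) else 0) := by
  have h1 : H460.th ((La q a).map (H460.emb (Fin n))) 0 t
      = ∑' x : La q a, Real.exp (-t * ‖emb (x : Fin n → ℤ)‖^2) := by
    unfold H460.th
    have hinj : Function.Injective (H460.emb (Fin n)) := emb_injective
    rw [← (AddSubgroup.equivMapOfInjective (La q a) (H460.emb (Fin n)) hinj).toEquiv.tsum_eq]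
    apply tsum_congr
    intro x
    simp only [add_zero]
    rfl
  rw [h1]
  have hs := gauss_summable (n := n) t ht
  have h2 : ∑' x : La q a, Real.exp (-t * ‖emb (x : Fin n → ℤ)‖^2)
      = ∑' x : Fin n → ℤ, (La q a : Set (Fin n → ℤ)).indicator (fun x => Real.exp (-t * ‖emb x‖^2)) x :=
    tsum_subtype (La q a : Set (Fin n → ℤ)) (fun x => Real.exp (-t * ‖emb x‖^2))
  rw [h2]
  have h3 : Summable ((La q a : Set (Fin n → ℤ)).indicator (fun x => Real.exp (-t * ‖emb x‖^2))) :=
    hs.indicator _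
  rw [h3.tsum_eq_add_tsum_ite 0]
  congr 1
  · have : (0 : Fin n → ℤ) ∈ (La q a : Set (Fin n → ℤ)) := (La q a).zero_mem
    rw [Set.indicator_of_mem this]
    have : emb (0 : Fin n → ℤ) = 0 := by ext; simp
    rw [this]; simp
  · apply tsum_congr
    intro x
    by_cases hx : x = 0
    · simp [hx]
    · by_cases hx' : x ∈ La q a
      · have : x ∈ (La q a : Set (Fin n → ℤ)) := hx'
        simp [hx, hx']
      · have : x ∉ (La q a : Set (Fin n → ℤ)) := hx'
        simp [hx, hx']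

lemma card_mem_La {n q : ℕ} [Fact q.Prime] (x : Fin n → ℤ) (hx : ¬ ∀ t, (x t : ZMod q) = 0) :
    (Nat.card {a : Fin n → ZMod q // x ∈ La q a}) * q = q ^ n := by
  have hv : LinearIndependent (ZMod q) (fun _ : Fin 1 => fun t : Fin n => (x t : ZMod q)) := by
    rw [linearIndependent_unique_iff]
    intro h
    apply hx
    intro t
    exact congrFun h t
  have h := card_orth 1 _ hv
  rw [pow_one] at h
  rw [← h]
  congr 1
  apply Nat.card_congr
  apply Equiv.subtypeEquivRight
  intro a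
  rw [mem_La]
  constructor
  · intro h _; exact h
  · intro h; exact h 0

open Classical in
/-- first moment of the theta function -/
lemma sum_theta {n q : ℕ} [Fact q.Prime] (t : ℝ) (ht : 0 < t) :
    ∑ a : Fin n → ZMod q, ∑' x : Fin n → ℤ, (if x ∈ La q a ∧ x ≠ 0 then Real.exp (-t * ‖emb x‖^2) else 0)
     ≤ (q:ℝ)^n * ((∑' x : Fin n → ℤ, Real.exp (-t * ‖emb x‖^2)) / q
        + Real.exp (-(t/2) * (q:ℝ)^2) * ∑' x : Fin n → ℤ, Real.exp (-(t/2) * ‖emb x‖^2)) := by
  have hs := gauss_summable (n := n) t ht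
  have hs2 := gauss_summable (n := n) (t/2) (by positivity)
  have hqpos : (0:ℝ) < q := by exact_mod_cast (Fact.out : q.Prime).pos
  have hsum : ∀ a : Fin n → ZMod q, Summable (fun x : Fin n → ℤ =>
      (if x ∈ La q a ∧ x ≠ 0 then Real.exp (-t * ‖emb x‖^2) else 0)) := by
    intro a
    apply Summable.of_nonneg_of_le _ _ hs
    · intro x; split_ifs; exact (Real.exp_pos _).le; exact le_rfl
    · intro x; split_ifs; exact le_rfl; exact (Real.exp_pos _).le
  rw [← Summable.tsum_finsetSum (fun a _ => hsum a)]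
  have hpt : ∀ x : Fin n → ℤ, ∑ a : Fin n → ZMod q, (if x ∈ La q a ∧ x ≠ 0 then Real.exp (-t * ‖emb x‖^2) else 0)
      ≤ (q:ℝ)^n * (Real.exp (-t * ‖emb x‖^2) / q + Real.exp (-(t/2) * (q:ℝ)^2) * Real.exp (-(t/2) * ‖emb x‖^2)) := by
    intro x
    have hnn : 0 ≤ (q:ℝ)^n * (Real.exp (-t * ‖emb x‖^2) / q + Real.exp (-(t/2) * (q:ℝ)^2) * Real.exp (-(t/2) * ‖emb x‖^2)) := by
      positivity
    by_cases hx : x = 0
    · simp [hx]; positivity
    · by_cases hx' : ∀ t, (x t : ZMod q) = 0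
      · -- multiples of q
        obtain ⟨i, hi⟩ : ∃ i, x i ≠ 0 := by
          by_contra h; push Not at h; exact hx (funext h)
        have hdvd : (q:ℤ) ∣ x i := (ZMod.intCast_zmod_eq_zero_iff_dvd _ q).1 (hx' i)
        have habs : (q:ℝ) ≤ |(x i : ℝ)| := by
          have := Int.le_of_dvd (abs_pos.2 hi) ((dvd_abs _ _).2 hdvd)
          exact_mod_cast this
        have hnorm : (q:ℝ)^2 ≤ ‖emb x‖^2 := by
          rw [EuclideanSpace.norm_sq_eq]
          calc (q:ℝ)^2 ≤ |(x i : ℝ)|^2 := by gcongr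
            _ = ‖emb x i‖^2 := by simp
            _ ≤ ∑ i, ‖emb x i‖^2 := Finset.single_le_sum (f := fun i => ‖emb x i‖^2) (fun _ _ => by positivity) (Finset.mem_univ i)
        have h1 : Real.exp (-t * ‖emb x‖^2) ≤ Real.exp (-(t/2) * (q:ℝ)^2) * Real.exp (-(t/2) * ‖emb x‖^2) := by
          rw [← Real.exp_add]
          apply Real.exp_le_exp.2
          nlinarith
        calc ∑ a : Fin n → ZMod q, (if x ∈ La q a ∧ x ≠ 0 then Real.exp (-t * ‖emb x‖^2) else 0)
            ≤ ∑ a : Fin n → ZMod q, Real.exp (-(t/2) * (q:ℝ)^2) * Real.exp (-(t/2) * ‖emb x‖^2) := by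
              apply Finset.sum_le_sum
              intro a _
              split_ifs
              · exact h1
              · positivity
          _ = (q:ℝ)^n * (Real.exp (-(t/2) * (q:ℝ)^2) * Real.exp (-(t/2) * ‖emb x‖^2)) := by
              rw [Finset.sum_const, nsmul_eq_mul, Finset.card_univ]
              simp
          _ ≤ _ := by
              gcongr
              have : 0 ≤ Real.exp (-t * ‖emb x‖^2) / q := by positivity
              linarith
      · have h1 := card_mem_La (q := q) x hx'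
        calc ∑ a : Fin n → ZMod q, (if x ∈ La q a ∧ x ≠ 0 then Real.exp (-t * ‖emb x‖^2) else 0)
            = (Nat.card {a : Fin n → ZMod q // x ∈ La q a} : ℝ) * Real.exp (-t * ‖emb x‖^2) := by
              simp only [hx, ne_eq, not_false_eq_true, and_true]
              rw [← Finset.sum_filter, Finset.sum_const, nsmul_eq_mul, Nat.card_eq_fintype_card,
                Fintype.card_subtype]
          _ = (q:ℝ)^n * (Real.exp (-t * ‖emb x‖^2) / q) := by
              have h2 : (Nat.card {a : Fin n → ZMod q // x ∈ La q a} : ℝ) * q = (q:ℝ)^n := by exact_mod_cast h1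
              rw [← h2]; field_simp
          _ ≤ _ := by
              gcongr
              have : 0 ≤ Real.exp (-(t/2) * (q:ℝ)^2) * Real.exp (-(t/2) * ‖emb x‖^2) := by positivity
              linarith
  have hR : Summable (fun x : Fin n → ℤ => (q:ℝ)^n * (Real.exp (-t * ‖emb x‖^2) / q + Real.exp (-(t/2) * (q:ℝ)^2) * Real.exp (-(t/2) * ‖emb x‖^2))) :=
    ((hs.div_const _).add (hs2.mul_left _)).mul_left _
  have hL : Summable (fun x : Fin n → ℤ => ∑ a : Fin n → ZMod q, (if x ∈ La q a ∧ x ≠ 0 then Real.exp (-t * ‖emb x‖^2) else 0)) :=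
    summable_sum fun a _ => hsum a
  calc ∑' x : Fin n → ℤ, ∑ a : Fin n → ZMod q, (if x ∈ La q a ∧ x ≠ 0 then Real.exp (-t * ‖emb x‖^2) else 0)
      ≤ ∑' x : Fin n → ℤ, (q:ℝ)^n * (Real.exp (-t * ‖emb x‖^2) / q + Real.exp (-(t/2) * (q:ℝ)^2) * Real.exp (-(t/2) * ‖emb x‖^2)) :=
        hL.tsum_le_tsum hpt hR
    _ = _ := by
        rw [tsum_mul_left, (hs.div_const _).tsum_add (hs2.mul_left _), tsum_div_const, tsum_mul_left]

lemma card_box {n μ q : ℕ} [Fact q.Prime] (hμ : μ ≤ n^2) (hq : (q:ℝ) ≤ 2 * (H460.NN n μ) ^ n)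
    (a : Fin n → ZMod q) : (2 : ℝ) ^ (μ * n) / 2 ≤ ((H460.boxSet (La q a)).ncard : ℝ) := by
  classical
  have hqpos : (0:ℝ) < q := by exact_mod_cast (Fact.out : q.Prime).pos
  set T : ℤ := 2 ^ (n^2) with hT
  have hTpos : 0 < T := by positivity
  set S : Finset (Fin n → ℤ) := Fintype.piFinset (fun _ => Finset.Icc (0:ℤ) T) with hS
  have hScard : (S.card : ℝ) = ((T:ℝ) + 1) ^ n := by
    rw [hS, Fintype.card_piFinset]
    simp only [Int.card_Icc, sub_zero, Finset.prod_const, Finset.card_univ, Fintype.card_fin]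
    push_cast
    congr 1
    have : (((T+1).toNat : ℤ) : ℝ) = ((T+1 : ℤ) : ℝ) := by
      rw [Int.toNat_of_nonneg (by omega)]
    push_cast at this
    exact_mod_cast this
  set φ : (Fin n → ℤ) → ZMod q := fun x => ∑ t, a t * (x t : ZMod q) with hφ
  obtain ⟨y, hy⟩ : ∃ y : ZMod q, (S.card : ℝ) ≤ q * ((S.filter fun x => φ x = y).card : ℝ) := by
    by_contra hcon
    push Not at hcon
    have h1 : (S.card : ℝ) = ∑ y : ZMod q, ((S.filter fun x => φ x = y).card : ℝ) := by
      have := Finset.card_eq_sum_card_fiberwise (f := φ) (s := S) (t := Finset.univ) (fun x _ => Finset.mem_coe.2 (Finset.mem_univ _))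
      rw [this]; push_cast; rfl
    have h2 : ∑ y : ZMod q, (q:ℝ) * ((S.filter fun x => φ x = y).card : ℝ) < ∑ y : ZMod q, (S.card : ℝ) :=
      Finset.sum_lt_sum_of_nonempty Finset.univ_nonempty fun y _ => hcon y
    rw [← Finset.mul_sum, ← h1, Finset.sum_const, Finset.card_univ, ZMod.card, nsmul_eq_mul] at h2
    exact lt_irrefl _ h2
  have hfne : (S.filter fun x => φ x = y).Nonempty := by
    rw [Finset.nonempty_iff_ne_empty]
    intro h
    rw [h] at hy
    simp only [Finset.card_empty, Nat.cast_zero, mul_zero] at hy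
    rw [hScard] at hy
    have : (0:ℝ) < ((T:ℝ)+1)^n := by positivity
    linarith
  obtain ⟨x0, hx0⟩ := hfne
  have hfinite : (H460.boxSet (La q a)).Finite := by
    apply Set.Finite.subset (Fintype.piFinset (fun _ : Fin n => Finset.Icc (-T) T)).finite_toSet
    intro x hx
    rw [Finset.mem_coe, Fintype.mem_piFinset]
    intro i
    have := hx.2 i
    rw [Finset.mem_Icc]
    exact abs_le.1 this
  have hle : (S.filter fun x => φ x = y).card ≤ (H460.boxSet (La q a)).ncard := by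
    rw [← Set.ncard_coe_finset]
    apply Set.ncard_le_ncard_of_injOn (fun x => x - x0) _ _ hfinite
    · intro x hx
      have hx' := Finset.mem_filter.1 (Finset.mem_coe.1 hx)
      have hx0' := Finset.mem_filter.1 hx0
      refine ⟨?_, ?_⟩
      · rw [mem_La]
        simp only [Pi.sub_apply, Int.cast_sub, mul_sub, Finset.sum_sub_distrib]
        have h1 : ∑ t, a t * (x t : ZMod q) = y := hx'.2
        have h2 : ∑ t, a t * (x0 t : ZMod q) = y := hx0'.2
        rw [h1, h2, sub_self]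
      · intro i
        have h1 := Finset.mem_Icc.1 ((Fintype.mem_piFinset.1 hx'.1) i)
        have h2 := Finset.mem_Icc.1 ((Fintype.mem_piFinset.1 hx0'.1) i)
        rw [Pi.sub_apply, abs_le]
        constructor <;> simp only [hT] at * <;> linarith [h1.1, h1.2, h2.1, h2.2]
    · intro x _ x' _ h
      exact sub_left_injective h
  have hTN : (T:ℝ) = 2 ^ μ * H460.NN n μ := by
    simp only [hT, H460.NN]
    push_cast
    rw [← pow_add]
    congr 1
    omega
  have hN : 0 < H460.NN n μ := by unfold H460.NN; positivity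
  have h3 : ((T:ℝ))^n ≤ q * ((H460.boxSet (La q a)).ncard : ℝ) := by
    calc ((T:ℝ))^n ≤ ((T:ℝ)+1)^n := by
          apply pow_le_pow_left₀ (by exact_mod_cast hTpos.le); linarith
      _ = S.card := hScard.symm
      _ ≤ q * ((S.filter fun x => φ x = y).card : ℝ) := hy
      _ ≤ q * ((H460.boxSet (La q a)).ncard : ℝ) := by gcongr
  have h4 : (2:ℝ) ^ (μ * n) * (H460.NN n μ)^n ≤ (2 * (H460.NN n μ)^n) * ((H460.boxSet (La q a)).ncard : ℝ) := by
    calc (2:ℝ) ^ (μ * n) * (H460.NN n μ)^n = (T:ℝ)^n := by rw [hTN, mul_pow, pow_mul]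
      _ ≤ _ := h3
      _ ≤ _ := by gcongr
  have hNn : 0 < (H460.NN n μ)^n := by positivity
  have h5 : (2:ℝ) ^ (μ * n) ≤ 2 * ((H460.boxSet (La q a)).ncard : ℝ) := by
    by_contra hcon
    push Not at hcon
    have := mul_lt_mul_of_pos_right hcon hNn
    nlinarith
  linarith

lemma theta_num {n μ q : ℕ} [Fact q.Prime] (hB : Big n μ) (hq : (H460.NN n μ) ^ n < q) :
    (∑' x : Fin n → ℤ, Real.exp (-(256 / H460.NN n μ ^ 2) * ‖emb x‖^2)) / q
        + Real.exp (-((256 / H460.NN n μ ^ 2)/2) * (q:ℝ)^2) * ∑' x : Fin n → ℤ, Real.exp (-((256 / H460.NN n μ ^ 2)/2) * ‖emb x‖^2)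
      ≤ 1 / 4 := by
  have hnbig := hB.n_ge
  have hnpos : (0:ℝ) < n := by linarith
  have hn2 : 2 ≤ n := by
    have : (2:ℝ) ≤ n := by linarith
    exact_mod_cast this
  set N := H460.NN n μ with hN
  have hqpos : (0:ℝ) < q := by exact_mod_cast (Fact.out : q.Prime).pos
  -- N is at least n
  have hexp : n ≤ n^2 - μ := by
    have h1 := hB.mu_le
    have : (n:ℝ) + μ ≤ (n:ℝ)^2 := by nlinarith
    have : n + μ ≤ n^2 := by exact_mod_cast this
    omega
  have hNn : (2:ℝ)^n ≤ N := by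
    rw [hN]; unfold H460.NN
    exact pow_le_pow_right₀ (by norm_num) hexp
  have hnat : (n:ℝ) < 2^n := by exact_mod_cast Nat.lt_two_pow_self
  have hNge : (n:ℝ) ≤ N := by linarith
  have hN1 : (88000:ℝ) ≤ N := by linarith
  have hNpos : 0 < N := by linarith
  have hNnpos : 0 < N^n := by positivity
  set t := 256 / N^2 with ht
  have htpos : 0 < t := by positivity
  have htn : t * n ≤ Real.log 2 := by
    rw [ht, div_mul_eq_mul_div, div_le_iff₀ (by positivity)]
    have := Real.log_two_gt_d9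
    nlinarith
  have hexptn : Real.exp (t * n) ≤ 2 := by
    calc Real.exp (t*n) ≤ Real.exp (Real.log 2) := Real.exp_le_exp.2 htn
      _ = 2 := Real.exp_log (by norm_num)
  have hexptn2 : Real.exp (t/2 * n) ≤ 2 := by
    calc Real.exp (t/2*n) ≤ Real.exp (Real.log 2) := Real.exp_le_exp.2 (by nlinarith)
      _ = 2 := Real.exp_log (by norm_num)
  have hpi : Real.sqrt Real.pi ≤ 2 := by
    rw [Real.sqrt_le_left (by norm_num)]
    have := Real.pi_lt_d2
    linarith
  have hs1 : Real.sqrt Real.pi / Real.sqrt (t/2) ≤ N / 4 := by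
    have h1 : Real.sqrt (t/2) ≥ 8 / N := by
      apply Real.le_sqrt_of_sq_le
      rw [ht, div_pow]
      rw [div_div, div_le_div_iff₀ (by positivity) (by positivity)]
      nlinarith [sq_nonneg N]
    rw [div_le_iff₀ (lt_of_lt_of_le (by positivity) h1)]
    calc Real.sqrt Real.pi ≤ 2 := hpi
      _ = N / 4 * (8 / N) := by field_simp; norm_num
      _ ≤ N / 4 * Real.sqrt (t/2) := by gcongr
  have hs2 : Real.sqrt Real.pi / Real.sqrt (t/2/2) ≤ N / 4 := by
    have h1 : Real.sqrt (t/2/2) ≥ 8 / N := by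
      apply Real.le_sqrt_of_sq_le
      rw [ht, div_pow]
      rw [div_div, div_div, div_le_div_iff₀ (by positivity) (by positivity)]
      nlinarith [sq_nonneg N]
    rw [div_le_iff₀ (lt_of_lt_of_le (by positivity) h1)]
    calc Real.sqrt Real.pi ≤ 2 := hpi
      _ = N / 4 * (8 / N) := by field_simp; norm_num
      _ ≤ N / 4 * Real.sqrt (t/2/2) := by gcongr
  have hG1 : ∑' x : Fin n → ℤ, Real.exp (-t * ‖emb x‖^2) ≤ 2 * (N/4)^n := by
    calc _ ≤ Real.exp (t * n) * (Real.sqrt Real.pi / Real.sqrt (t/2))^n := gauss_tsum t htpos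
      _ ≤ 2 * (N/4)^n := by
          gcongr
  have hG2 : ∑' x : Fin n → ℤ, Real.exp (-(t/2) * ‖emb x‖^2) ≤ 2 * (N/4)^n := by
    calc _ ≤ Real.exp (t/2 * n) * (Real.sqrt Real.pi / Real.sqrt (t/2/2))^n := gauss_tsum (t/2) (by positivity)
      _ ≤ 2 * (N/4)^n := by
          gcongr
  have h4n : (16:ℝ) ≤ 4^n := by
    calc (16:ℝ) = 4^2 := by norm_num
      _ ≤ 4^n := pow_le_pow_right₀ (by norm_num) hn2
  have hA : (∑' x : Fin n → ℤ, Real.exp (-t * ‖emb x‖^2)) / q ≤ 1/8 := by
    rw [div_le_iff₀ hqpos]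
    calc _ ≤ 2 * (N/4)^n := hG1
      _ = 2 * N^n / 4^n := by rw [div_pow]; ring
      _ ≤ 2 * N^n / 16 := by gcongr
      _ ≤ 1/8 * q := by linarith
  have hB' : Real.exp (-(t/2) * (q:ℝ)^2) * ∑' x : Fin n → ℤ, Real.exp (-(t/2) * ‖emb x‖^2) ≤ 1/8 := by
    have hy : 0 < (t/2) * (q:ℝ)^2 := by positivity
    have h1 : Real.exp (-(t/2) * (q:ℝ)^2) ≤ 1 / ((t/2) * (q:ℝ)^2) := by
      rw [neg_mul, Real.exp_neg, ← one_div]
      apply one_div_le_one_div_of_le hy
      have := Real.add_one_le_exp ((t/2) * (q:ℝ)^2)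
      linarith
    have hNn1 : N^2 ≤ N^n := pow_le_pow_right₀ (by linarith) hn2
    calc _ ≤ (1 / ((t/2) * (q:ℝ)^2)) * (2 * (N/4)^n) := by
          gcongr
      _ = (N^2 * (2 * N^n)) / (128 * 4^n * (q:ℝ)^2) := by
          rw [ht, div_pow]; field_simp; ring
      _ ≤ (N^n * (2 * N^n)) / (128 * 16 * (q:ℝ)^2) := by gcongr
      _ ≤ 1/8 := by
          rw [div_le_iff₀ (by positivity)]
          nlinarith
  have e1 : -(256 / N ^ 2) = -t := rfl
  have e2 : -((256 / N^2)/2) = -(t/2) := rfl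
  linarith

/-- **Random lattice.** -/
theorem random_lattice (μ : ℕ) : ∃ n₀ : ℕ, ∀ n : ℕ, n₀ ≤ n →
    ∃ L : AddSubgroup (Fin n → ℤ), H460.Good n μ L := by
  classical
  obtain ⟨n₀, hn₀⟩ := Filter.eventually_atTop.1 (eventually_big μ)
  refine ⟨n₀, fun n hn => ?_⟩
  have hB := hn₀ n hn
  -- prime
  obtain ⟨q, hqp, hq1, hq2⟩ := Nat.exists_prime_lt_and_le_two_mul ((2 ^ (n^2 - μ))^n) (by positivity)
  have : Fact q.Prime := ⟨hqp⟩
  have hN : H460.NN n μ = ((2 ^ (n^2-μ) : ℕ) : ℝ) := by unfold H460.NN; push_cast; rfl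
  have hq1' : (H460.NN n μ) ^ n < q := by rw [hN]; exact_mod_cast hq1
  have hq2' : (q:ℝ) ≤ 2 * (H460.NN n μ) ^ n := by rw [hN]; exact_mod_cast hq2
  have hNpos : 0 < H460.NN n μ := by unfold H460.NN; positivity
  have hqpos : (0:ℝ) < q := by exact_mod_cast hqp.pos
  set t := 256 / H460.NN n μ ^ 2 with ht
  have htpos : 0 < t := by positivity
  set Sa : (Fin n → ZMod q) → ℝ := fun a =>
    ∑' x : Fin n → ℤ, (if x ∈ La q a ∧ x ≠ 0 then Real.exp (-t * ‖emb x‖^2) else 0) with hSa
  have hSa0 : ∀ a, 0 ≤ Sa a := fun a => tsum_nonneg fun x => by split_ifs; exact (Real.exp_pos _).le; exact le_rfl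
  have hsum : ∑ a, Sa a ≤ (q:ℝ)^n * (1/4) := by
    refine (sum_theta (n := n) (q := q) t htpos).trans ?_
    gcongr
    exact theta_num hB hq1'
  by_contra hcon
  push Not at hcon
  have hall : ∀ a : Fin n → ZMod q, (∃ b : Fin (n/2) → (Fin n → ℤ),
      (∀ i, b i ∈ La q a) ∧ H460.BadTuple n μ b) ∨ 1 < Sa a := by
    intro a
    by_contra h
    push Not at h
    apply hcon (La q a)
    refine ⟨?_, ?_, card_box hB.mu_nat hq2' a⟩
    · rw [← ht, th_La a t htpos]
      linarith [h.2]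
    · intro b hb hbad
      exact h.1 b hb hbad
  set B1 : Finset (Fin n → ZMod q) := Finset.univ.filter fun a => ∃ b : Fin (n/2) → (Fin n → ℤ),
      (∀ i, b i ∈ La q a) ∧ H460.BadTuple n μ b
  set B2 : Finset (Fin n → ZMod q) := Finset.univ.filter fun a => 1 < Sa a
  have h1 : 4 * (B1.card : ℝ) ≤ (q:ℝ)^n := by
    have := card_bad (μ := μ) (q := q) hB hq1'
    rwa [Nat.card_eq_fintype_card, Fintype.card_subtype] at this
  have h2 : (B2.card : ℝ) ≤ (q:ℝ)^n * (1/4) := by
    calc (B2.card : ℝ) = ∑ a ∈ B2, (1:ℝ) := by simp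
      _ ≤ ∑ a ∈ B2, Sa a := Finset.sum_le_sum fun a ha => (Finset.mem_filter.1 ha).2.le
      _ ≤ ∑ a, Sa a := Finset.sum_le_sum_of_subset_of_nonneg (Finset.subset_univ _) fun a _ _ => hSa0 a
      _ ≤ _ := hsum
  have h3 : (q:ℝ)^n ≤ B1.card + B2.card := by
    have h4 : (Finset.univ : Finset (Fin n → ZMod q)) ⊆ B1 ∪ B2 := by
      intro a _
      rcases hall a with h | h
      · exact Finset.mem_union_left _ (Finset.mem_filter.2 ⟨Finset.mem_univ _, h⟩)
      · exact Finset.mem_union_right _ (Finset.mem_filter.2 ⟨Finset.mem_univ _, h⟩)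
    have h5 := (Finset.card_le_card h4).trans (Finset.card_union_le _ _)
    rw [Finset.card_univ] at h5
    simp only [Fintype.card_pi, ZMod.card, Finset.prod_const, Finset.card_univ, Fintype.card_fin] at h5
    exact_mod_cast h5
  have h6 : 0 < (q:ℝ)^n := by positivity
  linarith

end H139R2
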