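import Pool.Agent.H139R2.RL.GS

set_option autoImplicit false
set_option linter.unusedSectionVars false

namespace H139R2
open MeasureTheory Finset
open scoped RealInnerProductSpace
open InnerProductSpace

lemma emb_sum {n : ℕ} {ι : Type*} (s : Finset ι) (f : ι → Fin n → ℤ) :
    emb (∑ i ∈ s, f i) = ∑ i ∈ s, emb (f i) := by
  ext t
  simp [WithLp.ofLp_sum]

lemma emb_smul {n : ℕ} (k : ℤ) (x : Fin n → ℤ) : emb (k • x) = (k:ℝ) • emb x := by
  ext t; simp

lemma emb_add {n : ℕ} (x y : Fin n → ℤ) : emb (x + y) = emb x + emb y := by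
  ext t; simp

/-- integer tuples with small Gram-Schmidt products are independent modulo `q` -/
theorem indep_mod {n q : ℕ} [Fact q.Prime] (b : ℕ → Fin n → ℤ) (d : ℕ)
    (hne : ∀ i < d, gs b i ≠ 0) (hlt : ∀ j < d, ∏ i ∈ range (j+1), ‖gs b i‖ < q) :
    LinearIndependent (ZMod q) (fun i : Fin d => fun t : Fin n => (b i t : ZMod q)) := by
  classical
  by_contra hcon
  rw [Fintype.not_linearIndependent_iff] at hcon
  obtain ⟨c, hc, i1, hi1⟩ := hcon
  obtain ⟨i0, hi0mem, hi0max⟩ := (Finset.univ.filter (fun i : Fin d => c i ≠ 0)).exists_max_image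
    (fun i => (i:ℕ)) ⟨i1, by simp [hi1]⟩
  have hci0 : c i0 ≠ 0 := (Finset.mem_filter.1 hi0mem).2
  have hzero : ∀ i : Fin d, (i0:ℕ) < i → c i = 0 := by
    intro i hi
    by_contra h
    have := hi0max i (by simp [h])
    omega
  -- integer coefficients
  set e : ℕ → ℤ := fun i => if h : i < d then ((((c i0)⁻¹ * c ⟨i, h⟩ : ZMod q).val : ℕ) : ℤ) else 0 with he
  have hq0 : (q:ℤ) ≠ 0 := by exact_mod_cast (Fact.out : q.Prime).ne_zero
  have hdvd : ∀ t : Fin n, (q:ℤ) ∣ (b i0 t + ∑ i ∈ range i0, e i * b i t) := by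
    intro t
    rw [← ZMod.intCast_zmod_eq_zero_iff_dvd _ q]
    push_cast
    have h1 : (c i0)⁻¹ * ∑ i : Fin d, c i * (b i t : ZMod q) = 0 := by
      have := congrFun hc t
      simp only [Finset.sum_apply, Pi.smul_apply, smul_eq_mul, Pi.zero_apply] at this
      rw [this, mul_zero]
    have h2 : (c i0)⁻¹ * ∑ i : Fin d, c i * (b i t : ZMod q)
        = ∑ i ∈ range d, (e i : ZMod q) * (b i t : ZMod q) := by
      rw [Finset.mul_sum, ← Fin.sum_univ_eq_sum_range (fun i => (e i : ZMod q) * (b i t : ZMod q))]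
      apply Finset.sum_congr rfl
      intro i _
      simp only [he, i.2, dif_pos, Fin.eta]
      rw [Int.cast_natCast, ZMod.natCast_zmod_val, mul_assoc]
    rw [h2, ← Finset.sum_range_add_sum_Ico _ i0.2, Finset.sum_range_succ,
      Finset.sum_eq_zero (s := Finset.Ico _ _), add_zero] at h1
    · rw [add_comm]
      convert h1 using 2
      simp only [he, i0.2, dif_pos, Fin.eta]
      rw [inv_mul_cancel₀ hci0, ZMod.val_one, Nat.cast_one, Int.cast_one, one_mul]
    · intro i hi
      obtain ⟨hi1, hi2⟩ := Finset.mem_Ico.1 hi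
      simp only [he, hi2, dif_pos]
      rw [hzero ⟨i, hi2⟩ (by simpa using hi1)]
      simp
  choose y hy using hdvd
  set b' : ℕ → Fin n → ℤ := fun i => if i = i0 then y else b i with hb'
  have hagree : ∀ i < (i0:ℕ), b' i = b i := by
    intro i hi; simp only [hb']; rw [if_neg (by omega)]
  have hgs1 : ∀ i < (i0:ℕ), gs b' i = gs b i := by
    intro i hi
    exact gs_congr fun i' hi' => hagree i' (by omega)
  have hU : Ub (fun i => emb (b' i)) i0 = Ub (fun i => emb (b i)) i0 := by
    unfold Ub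
    congr 1
    apply Set.image_congr
    intro i hi
    rw [hagree i hi]
  have hqr : (q:ℝ) ≠ 0 := by exact_mod_cast (Fact.out : q.Prime).ne_zero
  have hqpos : (0:ℝ) < q := by exact_mod_cast (Fact.out : q.Prime).pos
  have hybig : (q:ℝ) • emb y = emb (b i0) + ∑ i ∈ range i0, (e i : ℝ) • emb (b i) := by
    have h1 : (q:ℤ) • y = b i0 + ∑ i ∈ range i0, e i • b i := by
      funext t
      simp only [Pi.smul_apply, Pi.add_apply, Finset.sum_apply, smul_eq_mul]
      rw [← hy t]
    have h2 := congrArg emb h1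
    rw [emb_smul, emb_add, emb_sum] at h2
    simp_rw [emb_smul] at h2
    exact_mod_cast h2
  have hgs2 : gs b' i0 = (q:ℝ)⁻¹ • gs b i0 := by
    apply gs_unique
    · rw [hU]
      exact Submodule.smul_mem _ _ (gs_mem_orth _ _)
    · rw [hU]
      have h1 : emb (b' i0) = emb y := by simp [hb']
      have h2 : emb (b' i0) - (q:ℝ)⁻¹ • gs b i0
          = (q:ℝ)⁻¹ • ((emb (b i0) - gs b i0) + ∑ i ∈ range i0, (e i : ℝ) • emb (b i)) := by
        rw [h1]
        have : emb y = (q:ℝ)⁻¹ • ((q:ℝ) • emb y) := by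
          rw [smul_smul, inv_mul_cancel₀ hqr, one_smul]
        rw [this, hybig, ← smul_sub]
        congr 1
        abel
      rw [h2]
      apply Submodule.smul_mem
      apply Submodule.add_mem
      · exact sub_gs_mem (fun i => emb (b i)) i0
      · apply Submodule.sum_mem
        intro i hi
        apply Submodule.smul_mem
        exact mem_Ub (fun i => emb (b i)) (Finset.mem_range.1 hi)
  have hone := one_le_prod_gs b' (i0+1) (by
    intro i hi
    rcases Nat.lt_succ_iff_lt_or_eq.1 hi with h | h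
    · rw [hgs1 i h]; exact hne i (by omega)
    · subst h; rw [hgs2]
      exact smul_ne_zero (inv_ne_zero hqr) (hne _ i0.2))
  rw [Finset.prod_range_succ, hgs2, norm_smul, norm_inv, Real.norm_natCast] at hone
  have h3 : ∏ i ∈ range i0, ‖gs b' i‖ = ∏ i ∈ range i0, ‖gs b i‖ :=
    Finset.prod_congr rfl fun i hi => by rw [hgs1 i (Finset.mem_range.1 hi)]
  rw [h3] at hone
  have h4 := hlt i0 i0.2
  rw [Finset.prod_range_succ] at h4
  have h5 : (∏ i ∈ range i0, ‖gs b i‖) * ((q:ℝ)⁻¹ * ‖gs b i0‖)
      = ((∏ i ∈ range i0, ‖gs b i‖) * ‖gs b i0‖) / q := by field_simp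
  rw [h5, le_div_iff₀ hqpos] at hone
  linarith

/-- the lattice `a·x = 0 mod q` -/
def La {n : ℕ} (q : ℕ) (a : Fin n → ZMod q) : AddSubgroup (Fin n → ℤ) where
  carrier := {x | ∑ t, a t * (x t : ZMod q) = 0}
  zero_mem' := by simp
  add_mem' := by
    intro x y hx hy
    simp only [Set.mem_ofPred_eq, Pi.add_apply, Int.cast_add, mul_add, Finset.sum_add_distrib] at *
    rw [hx, hy, add_zero]
  neg_mem' := by
    intro x hx
    simp only [Set.mem_ofPred_eq, Pi.neg_apply, Int.cast_neg, mul_neg, Finset.sum_neg_distrib] at *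
    rw [hx, neg_zero]

lemma mem_La {n q : ℕ} (a : Fin n → ZMod q) (x : Fin n → ℤ) :
    x ∈ La q a ↔ ∑ t, a t * (x t : ZMod q) = 0 := Iff.rfl

/-- number of `a` orthogonal to `d` independent vectors -/
theorem card_orth {n q : ℕ} [Fact q.Prime] (d : ℕ) (v : Fin d → Fin n → ZMod q)
    (hv : LinearIndependent (ZMod q) v) :
    Nat.card {a : Fin n → ZMod q // ∀ i, ∑ t, a t * v i t = 0} * q ^ d = q ^ n := by
  classical
  set M : Matrix (Fin d) (Fin n) (ZMod q) := Matrix.of v with hM
  set φ := M.mulVecLin with hφ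
  have hrank : Module.finrank (ZMod q) (LinearMap.range φ) = d := by
    have h1 : M.rank = Fintype.card (Fin d) := LinearIndependent.rank_matrix (by simpa [hM] using hv)
    rw [Fintype.card_fin] at h1
    exact h1
  have hker : Module.finrank (ZMod q) (LinearMap.range φ) + Module.finrank (ZMod q) (LinearMap.ker φ) = n := by
    rw [LinearMap.finrank_range_add_finrank_ker]; simp
  have hcardker : Nat.card (LinearMap.ker φ) = q ^ (Module.finrank (ZMod q) (LinearMap.ker φ)) := by
    rw [Nat.card_eq_fintype_card, Module.card_eq_pow_finrank (K := ZMod q), ZMod.card]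
  have heq : Nat.card {a : Fin n → ZMod q // ∀ i, ∑ t, a t * v i t = 0} = Nat.card (LinearMap.ker φ) := by
    apply Nat.card_congr
    apply Equiv.subtypeEquivRight
    intro a
    rw [LinearMap.mem_ker, hφ, Matrix.mulVecLin_apply]
    constructor
    · intro h
      funext i
      rw [Matrix.mulVec, dotProduct, Pi.zero_apply, ← h i]
      exact Finset.sum_congr rfl fun t _ => by rw [hM, Matrix.of_apply, mul_comm]
    · intro h i
      have := congrFun h i
      rw [Matrix.mulVec, dotProduct, Pi.zero_apply] at this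
      rw [← this]
      exact Finset.sum_congr rfl fun t _ => by rw [hM, Matrix.of_apply, mul_comm]
  rw [heq, hcardker, ← pow_add]
  congr 1
  omega

end H139R2
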