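import Pool.Agent.H139R2.RL.Mod

set_option autoImplicit false
set_option linter.unusedSectionVars false

namespace H139R2
open MeasureTheory Finset
open scoped RealInnerProductSpace
open InnerProductSpace

/-- Abel summation identity -/
lemma abel_id (n : ℝ) (A : ℕ → ℝ) (hA : A 0 = 0) (d : ℕ) :
    ∑ j ∈ range d, (A j + (n - j) * (A (j+1) - A j)) = (n - d + 1) * A d + 2 * ∑ j ∈ range d, A j := by
  induction d with
  | zero => simp [hA]
  | succ d ih =>
    rw [Finset.sum_range_succ, ih, Finset.sum_range_succ (fun j => A j)]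
    push_cast
    ring

lemma sum_range_id_real (d : ℕ) : ∑ j ∈ range d, (j:ℝ) = d * (d - 1) / 2 := by
  induction d with
  | zero => simp
  | succ d ih => rw [Finset.sum_range_succ, ih]; push_cast; ring

lemma log_Kst {n : ℕ} (hn : 0 < n) (u : ℕ → ℝ) (hu : ∀ i, 1 ≤ u i) (j : ℕ) (hj : j ≤ n) :
    Real.log (Kst n u j) = 6 * n + ∑ i ∈ range j, (Real.log n / 2 + Real.log (u i))
      + (n - j) * Real.log (u j) := by
  have hnr : (0:ℝ) < n := by exact_mod_cast hn
  have hupos : ∀ i, 0 < u i := fun i => by linarith [hu i]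
  have hs : 0 < Real.sqrt n := Real.sqrt_pos.2 hnr
  unfold Kst
  have h1 : 0 < ∏ i ∈ range j, (Real.sqrt n * u i) := Finset.prod_pos fun i _ => mul_pos hs (hupos i)
  rw [Real.log_mul (by positivity) (pow_pos (hupos j) _).ne', Real.log_mul (Real.exp_ne_zero _) h1.ne',
    Real.log_exp, Real.log_pow, Nat.cast_sub hj, Real.log_prod (fun i _ => (mul_pos hs (hupos i)).ne')]
  congr 2
  apply Finset.sum_congr rfl
  intro i _
  rw [Real.log_mul hs.ne' (hupos i).ne', Real.log_sqrt hnr.le]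

/-- Bound for a class: `u i = 2 y i / √n` where the partial products of `y` are bounded. -/
lemma log_prod_Kst {n : ℕ} (hn : 0 < n) (u : ℕ → ℝ) (hu : ∀ i, 1 ≤ u i) (d : ℕ) (hd : d ≤ n)
    (τ g : ℝ) (hY : ∀ j ≤ d, ∑ i ∈ range j, (Real.log (u i) + Real.log n / 2 - Real.log 2) ≤ j * τ + g) :
    Real.log (∏ j ∈ range d, Kst n u j) ≤
      6 * n * d + n * d * Real.log 2 + n * d * τ + g * (n + d + 1)
        - Real.log n / 2 * (n * d - d * (d - 1) / 2) := by
  have hnr : (0:ℝ) < n := by exact_mod_cast hn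
  have hdn : (d:ℝ) ≤ n := by exact_mod_cast hd
  have hKpos : ∀ j, 0 < Kst n u j := by
    intro j
    unfold Kst
    have hupos : ∀ i, 0 < u i := fun i => by linarith [hu i]
    have hs : 0 < Real.sqrt n := Real.sqrt_pos.2 hnr
    have h1 : 0 < ∏ i ∈ range j, (Real.sqrt n * u i) := Finset.prod_pos fun i _ => mul_pos hs (hupos i)
    have := hupos j
    positivity
  rw [Real.log_prod (fun j _ => (hKpos j).ne')]
  set A : ℕ → ℝ := fun j => ∑ i ∈ range j, (Real.log (u i) + Real.log n / 2 - Real.log 2) with hA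
  have hA0 : A 0 = 0 := by simp [hA]
  have hterm : ∀ j ∈ range d, Real.log (Kst n u j)
      = 6 * n + (j * Real.log 2 + (n - j) * (Real.log 2 - Real.log n / 2))
        + (A j + (n - j) * (A (j+1) - A j)) := by
    intro j hj
    have hj' := Finset.mem_range.1 hj
    rw [log_Kst hn u hu j (by omega)]
    have e1 : A (j+1) - A j = Real.log (u j) + Real.log n / 2 - Real.log 2 := by
      simp only [hA, Finset.sum_range_succ]; ring
    have e2 : ∑ i ∈ range j, (Real.log n / 2 + Real.log (u i)) = A j + j * Real.log 2 := by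
      simp only [hA]
      rw [← sub_eq_iff_eq_add]
      have : (j:ℝ) * Real.log 2 = ∑ i ∈ range j, Real.log 2 := by simp
      rw [this, ← Finset.sum_sub_distrib]
      exact Finset.sum_congr rfl fun i _ => by ring
    rw [e1, e2]; ring
  rw [Finset.sum_congr rfl hterm, Finset.sum_add_distrib, abel_id n A hA0 d]
  have hlin : ∑ j ∈ range d, (6 * (n:ℝ) + (j * Real.log 2 + (n - j) * (Real.log 2 - Real.log n / 2)))
      = 6 * n * d + n * d * Real.log 2 - Real.log n / 2 * (n * d - d * (d-1)/2) := by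
    have : ∀ j ∈ range d, (6 * (n:ℝ) + (j * Real.log 2 + (n - j) * (Real.log 2 - Real.log n / 2)))
       = (6 * (n:ℝ) + n * Real.log 2 - n * (Real.log n / 2)) + (Real.log n / 2) * (j:ℝ) := by
      intro j _; ring
    rw [Finset.sum_congr rfl this, Finset.sum_add_distrib, ← Finset.mul_sum, sum_range_id_real]
    simp; ring
  rw [hlin]
  have hAd : A d ≤ d * τ + g := hY d le_rfl
  have hsum : ∑ j ∈ range d, A j ≤ d * (d-1)/2 * τ + d * g := by
    calc ∑ j ∈ range d, A j ≤ ∑ j ∈ range d, ((j:ℝ) * τ + g) :=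
          Finset.sum_le_sum fun j hj => hY j (Finset.mem_range.1 hj).le
      _ = d * (d-1)/2 * τ + d * g := by
          rw [Finset.sum_add_distrib, ← Finset.sum_mul, sum_range_id_real]; simp
  have h1 : (n - d + 1) * A d ≤ (n - d + 1) * (d * τ + g) := by
    apply mul_le_mul_of_nonneg_left hAd; linarith
  nlinarith

/-- Counting size-reduced tuples through dyadic classes. -/
theorem tuple_count {n d : ℕ} (hn : 0 < n) (hd : d ≤ n) (τ g : ℝ) (L : ℕ)
    (F : Finset (ℕ → Fin n → ℤ))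
    (hzero : ∀ c ∈ F, ∀ i, d ≤ i → c i = 0)
    (hne : ∀ c ∈ F, ∀ i < d, gs c i ≠ 0)
    (hred : ∀ c ∈ F, ∀ i < d, ∀ i' < i, |⟪gs c i', emb (c i)⟫| ≤ ‖gs c i'‖ ^ 2 / 2)
    (hlow : ∀ c ∈ F, ∀ i < d, Real.sqrt n ≤ ‖gs c i‖)
    (hup : ∀ c ∈ F, ∀ i < d, ‖gs c i‖ < Real.sqrt n * 2 ^ L)
    (hprod : ∀ c ∈ F, ∀ j ≤ d, ∑ i ∈ range j, Real.log ‖gs c i‖ ≤ j * τ + g) :
    (F.card : ℝ) ≤ (L:ℝ) ^ d * Real.exp (
      6 * n * d + n * d * Real.log 2 + n * d * τ + g * (n + d + 1)
        - Real.log n / 2 * (n * d - d * (d - 1) / 2)) := by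
  classical
  have hnr : (0:ℝ) < n := by exact_mod_cast hn
  have hs : 0 < Real.sqrt n := Real.sqrt_pos.2 hnr
  -- class map
  set cl : (ℕ → Fin n → ℤ) → (Fin d → ℕ) := fun c i => Nat.log 2 ⌊‖gs c i‖ / Real.sqrt n⌋₊ with hcl
  have hprop : ∀ c ∈ F, ∀ i : Fin d, (2:ℝ) ^ (cl c i) ≤ ‖gs c i‖ / Real.sqrt n ∧
      ‖gs c i‖ / Real.sqrt n < 2 ^ (cl c i + 1) := by
    intro c hc i
    have h1 : 1 ≤ ‖gs c i‖ / Real.sqrt n := by
      rw [le_div_iff₀ hs, one_mul]; exact hlow c hc i i.2
    have h2 : 1 ≤ ⌊‖gs c i‖ / Real.sqrt n⌋₊ := by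
      rw [Nat.le_floor_iff (by linarith)]; exact_mod_cast h1
    constructor
    · have h3 := Nat.pow_log_le_self 2 (x := ⌊‖gs c i‖ / Real.sqrt n⌋₊) (by omega)
      have h4 : ((2 ^ (cl c i) : ℕ) : ℝ) ≤ (⌊‖gs c i‖ / Real.sqrt n⌋₊ : ℝ) := by exact_mod_cast h3
      have h5 := Nat.floor_le (show 0 ≤ ‖gs c i‖ / Real.sqrt n by linarith)
      push_cast at h4
      linarith
    · have h3 := Nat.lt_pow_succ_log_self (b := 2) (by norm_num) ⌊‖gs c i‖ / Real.sqrt n⌋₊
      rw [Nat.floor_lt (by linarith)] at h3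
      exact_mod_cast h3
  have hclL : ∀ c ∈ F, ∀ i : Fin d, cl c i < L := by
    intro c hc i
    have h1 := (hprop c hc i).1
    have h2 := hup c hc i i.2
    have h3 : (2:ℝ) ^ (cl c i) < 2 ^ L := by
      refine lt_of_le_of_lt h1 ?_
      rw [div_lt_iff₀ hs, mul_comm]; exact h2
    exact (pow_lt_pow_iff_right₀ (by norm_num : (1:ℝ) < 2)).1 h3
  have hcard : (F.card : ℝ) = ∑ m ∈ F.image cl, ((F.filter fun c => cl c = m).card : ℝ) := by
    have := Finset.card_eq_sum_card_image cl F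
    rw [this]; push_cast; rfl
  have himg : ((F.image cl).card : ℝ) ≤ (L:ℝ) ^ d := by
    have h1 : F.image cl ⊆ Fintype.piFinset (fun _ : Fin d => Finset.range L) := by
      intro m hm
      obtain ⟨c, hc, rfl⟩ := Finset.mem_image.1 hm
      rw [Fintype.mem_piFinset]
      intro i
      exact Finset.mem_range.2 (hclL c hc i)
    have h2 := Finset.card_le_card h1
    rw [Fintype.card_piFinset] at h2
    simp at h2
    exact_mod_cast h2
  rw [hcard]
  set B := Real.exp (
      6 * n * d + n * d * Real.log 2 + n * d * τ + g * (n + d + 1)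
        - Real.log n / 2 * (n * d - d * (d - 1) / 2)) with hB
  have hfib : ∀ m ∈ F.image cl, ((F.filter fun c => cl c = m).card : ℝ) ≤ B := by
    intro m hm
    obtain ⟨c0, hc0, hc0m⟩ := Finset.mem_image.1 hm
    set u : ℕ → ℝ := fun i => if h : i < d then 2 ^ (m ⟨i, h⟩ + 1) else 1 with hu
    have hu1 : ∀ i, 1 ≤ u i := by
      intro i; simp only [hu]; split_ifs
      · exact one_le_pow₀ (by norm_num)
      · exact le_rfl
    have hgood : ∀ c ∈ F.filter (fun c => cl c = m), Good n d u c := by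
      intro c hc
      obtain ⟨hcF, hcm⟩ := Finset.mem_filter.1 hc
      refine ⟨hzero c hcF, hne c hcF, hred c hcF, ?_⟩
      intro i hi
      have h1 := (hprop c hcF ⟨i, hi⟩).2
      rw [hcm] at h1
      simp only [hu, hi, dif_pos]
      rw [div_lt_iff₀ hs] at h1
      simp only at h1
      linarith [mul_comm (Real.sqrt n) ((2:ℝ) ^ (m ⟨i, hi⟩ + 1))]
    have h1 := good_card_le u hu1 d hd _ hgood
    refine h1.trans ?_
    have hKpos : 0 < ∏ j ∈ range d, Kst n u j := by
      apply Finset.prod_pos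
      intro j _
      unfold Kst
      have hupos : ∀ i, 0 < u i := fun i => by linarith [hu1 i]
      have h1 : 0 < ∏ i ∈ range j, (Real.sqrt n * u i) := Finset.prod_pos fun i _ => mul_pos hs (hupos i)
      have := hupos j
      positivity
    rw [hB, ← Real.log_le_iff_le_exp hKpos]
    apply log_prod_Kst hn u hu1 d hd τ g
    intro j hj
    refine le_trans ?_ (hprod c0 hc0 j hj)
    apply Finset.sum_le_sum
    intro i hi
    have hi' : i < d := lt_of_lt_of_le (Finset.mem_range.1 hi) hj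
    have h2 := (hprop c0 hc0 ⟨i, hi'⟩).1
    rw [hc0m] at h2
    simp only [hu, hi', dif_pos]
    simp only at h2
    have hgpos : 0 < ‖gs c0 i‖ := norm_pos_iff.2 (hne c0 hc0 i hi')
    have h3 : Real.log ((2:ℝ) ^ (m ⟨i, hi'⟩)) ≤ Real.log (‖gs c0 i‖ / Real.sqrt n) :=
      Real.log_le_log (by positivity) h2
    rw [Real.log_div hgpos.ne' hs.ne', Real.log_sqrt hnr.le] at h3
    rw [pow_succ, Real.log_mul (by positivity) (by norm_num)]
    linarith
  calc ∑ m ∈ F.image cl, ((F.filter fun c => cl c = m).card : ℝ)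
      ≤ ∑ m ∈ F.image cl, B := Finset.sum_le_sum hfib
    _ = (F.image cl).card * B := by rw [Finset.sum_const, nsmul_eq_mul]
    _ ≤ (L:ℝ) ^ d * B := by
        apply mul_le_mul_of_nonneg_right himg (Real.exp_pos _).le

end H139R2
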